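import Pool.Agent.Lib.MP_05805c_nt.L35.Dyn

/-!
# Components of quotients of maps `M` of `A^k` with `M (M (x + z)) = r x + z`

`A` finite abelian, `#A = u q`, `u` composed of primes dividing `r`, `q` prime to `r`: a quotient of `M` with fibres of
at most `B` elements has at least `q^(k-1)/(2B)` components.
-/

set_option autoImplicit false

namespace Pool.Agent.Lib.MP_05805c_nt

open Function

theorem exists_smooth_part (r : ℕ) (n : ℕ) (hn : 0 < n) :
    ∃ u q w : ℕ, n = u * q ∧ u ∣ r ^ w ∧ Nat.Coprime q r := by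
  induction n using Nat.strong_induction_on with
  | _ n ih =>
    by_cases h : Nat.Coprime n r
    · exact ⟨1, n, 0, (one_mul n).symm, one_dvd _, h⟩
    · obtain ⟨n', hn'⟩ := Nat.gcd_dvd_left n r
      have hg : 1 < Nat.gcd n r := by
        have h0 : 0 < Nat.gcd n r := Nat.gcd_pos_of_pos_left r hn
        have h1 : Nat.gcd n r ≠ 1 := h
        omega
      have hn'0 : 0 < n' := Nat.pos_of_ne_zero (by rintro rfl; rw [mul_zero] at hn'; omega)
      have hlt : n' < n := by
        calc n' = 1 * n' := (one_mul _).symm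
          _ < Nat.gcd n r * n' := Nat.mul_lt_mul_of_pos_right hg hn'0
          _ = n := hn'.symm
      obtain ⟨u, q, w, h1, h2, h3⟩ := ih n' hlt hn'0
      refine ⟨Nat.gcd n r * u, q, w + 1, ?_, ?_, h3⟩
      · rw [mul_assoc, ← h1]
        exact hn'
      · rw [pow_succ, mul_comm (r ^ w)]
        exact mul_dvd_mul (Nat.gcd_dvd_right n r) h2

/-- the part of order prime to `r` -/
theorem exists_coprime_part (A : Type*) [AddCommGroup A] [Finite A] (r : ℕ) :
    ∃ (u : ℕ) (A' : AddSubgroup A), Nat.card A = u * Nat.card A' ∧ (∀ ℓ : ℕ, ℓ.Prime → ℓ ∣ u → ℓ ∣ r) ∧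
      Nat.Coprime (Nat.card A') r := by
  obtain ⟨u, q, w, hn, hu, hq⟩ := exists_smooth_part r (Nat.card A) Nat.card_pos
  let g : A →+ A := nsmulAddMonoidHom (r ^ w)
  refine ⟨Nat.card g.ker, g.range, ?_, ?_, ?_⟩
  · have h1 := AddSubgroup.card_mul_index g.ker
    rw [AddSubgroup.index_ker] at h1
    exact h1.symm
  · intro ℓ hℓ hd
    have : Fact ℓ.Prime := ⟨hℓ⟩
    obtain ⟨x, hx⟩ := exists_prime_addOrderOf_dvd_card' ℓ hd
    have h2 : (r ^ w) • x = 0 := by
      apply Subtype.ext
      have h3 := x.2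
      rw [AddMonoidHom.mem_ker] at h3
      simpa [g] using h3
    have h4 := addOrderOf_dvd_of_nsmul_eq_zero h2
    rw [hx] at h4
    exact hℓ.dvd_of_dvd_pow h4
  · rw [Nat.coprime_iff_gcd_eq_one]
    by_contra hne
    obtain ⟨ℓ, hℓ, hd⟩ := Nat.exists_prime_and_dvd hne
    have : Fact ℓ.Prime := ⟨hℓ⟩
    obtain ⟨x, hx⟩ := exists_prime_addOrderOf_dvd_card' ℓ (hd.trans (Nat.gcd_dvd_left _ _))
    obtain ⟨y, hy⟩ := AddMonoidHom.mem_range.1 x.2
    obtain ⟨s, hs⟩ := hu
    have h4 : q • (x : A) = 0 := by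
      rw [← hy]
      change q • ((r ^ w) • y) = 0
      rw [← mul_nsmul, hs, show (u * s * q) = (u * q) * s by ring, ← hn, mul_nsmul, card_nsmul_eq_zero', smul_zero]
    have h5 : q • x = 0 := Subtype.ext (by simpa using h4)
    have h6 := addOrderOf_dvd_of_nsmul_eq_zero h5
    rw [hx] at h6
    have h7 : ℓ ∣ Nat.gcd q r := Nat.dvd_gcd h6 (hd.trans (Nat.gcd_dvd_right _ _))
    rw [Nat.Coprime.gcd_eq_one hq] at h7
    exact hℓ.one_lt.ne' (Nat.dvd_one.1 h7)

theorem dynR {A : Type*} [AddCommGroup A] [Finite A] {k : ℕ} (hk : 1 ≤ k) (M : (Fin k → A) → (Fin k → A)) (r : ℕ)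
    (hr : 1 ≤ r) (z : Fin k → A)
    (hM : ∀ x, M (M (x + z)) = r • x + z) {S : Type*} [Finite S] (f : S → S) (φ : (Fin k → A) → S)
    (hφ : ∀ x, φ (M x) = f (φ x)) (B : ℕ) (hB : ∀ s, {x | φ x = s}.ncard ≤ B) :
    ∃ u q : ℕ, Nat.card A = u * q ∧ (∀ ℓ : ℕ, ℓ.Prime → ℓ ∣ u → ℓ ∣ r) ∧ q ^ (k - 1) ≤ 2 * B * comps f := by
  classical
  obtain ⟨u, A', hcard, hu, hcop⟩ := exists_coprime_part A r
  set q := Nat.card A' with hq
  have hq0 : 0 < q := Nat.card_pos
  refine ⟨u, q, hcard, hu, ?_⟩
  have := Fintype.ofFinite A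
  have := Fintype.ofFinite A'
  set e := Nat.totient q with he
  have he0 : 0 < e := Nat.totient_pos.2 hq0
  -- `r^e` acts trivially on `A'`
  have hfix : ∀ x ∈ A', r ^ e • x = x := by
    intro x hx
    have h1 : r ^ e ≡ 1 [MOD q] := Nat.ModEq.pow_totient hcop.symm
    have h2 : 1 ≤ r ^ e := Nat.one_le_pow _ _ hr
    obtain ⟨j, hj⟩ := (Nat.modEq_iff_dvd' h2).1 h1.symm
    have h3 : r ^ e = q * j + 1 := by omega
    have h4 : q • x = 0 := by
      have h5 : q • (⟨x, hx⟩ : A') = 0 := card_nsmul_eq_zero'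
      simpa using congrArg Subtype.val h5
    rw [h3, add_nsmul, one_nsmul, mul_nsmul, h4]
    simp
  -- the set `A'^k + z`
  set T₀ : Finset (Fin k → A) := Finset.univ.filter fun x => ∀ i, x i ∈ A' with hT₀
  set T : Finset (Fin k → A) := T₀.image fun x => x + z with hT
  have hTcard : T.card = q ^ k := by
    rw [hT, Finset.card_image_of_injective _ (add_left_injective z)]
    have h1 : T₀.card = Fintype.card (Fin k → A') := by
      rw [← Fintype.card_subtype]
      apply Fintype.card_congr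
      exact { toFun := fun x i => ⟨x.1 i, x.2 i⟩
              invFun := fun y => ⟨fun i => (y i : A), fun i => (y i).2⟩
              left_inv := fun x => rfl
              right_inv := fun y => rfl }
    rw [h1, Fintype.card_fun, Fintype.card_fin, hq, Nat.card_eq_fintype_card]
  have hMM : ∀ (n : ℕ) (x : Fin k → A), M^[2 * n] (x + z) = r ^ n • x + z := by
    intro n
    induction n with
    | zero => intro x; simp
    | succ n ih =>
      intro x
      have h1 : 2 * (n + 1) = 2 * n + 1 + 1 := by ring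
      rw [h1, Function.iterate_succ_apply, Function.iterate_succ_apply, hM, ih, ← mul_nsmul, pow_succ']
  have hfixT : ∀ x ∈ T, M^[2 * e] x = x := by
    intro x hx
    obtain ⟨y, hy, rfl⟩ := Finset.mem_image.1 hx
    rw [hMM]
    congr 1
    funext i
    rw [Pi.smul_apply]
    exact hfix _ ((Finset.mem_filter.1 hy).2 i)
  have hφit : ∀ (n : ℕ) (x : Fin k → A), φ (M^[n] x) = f^[n] (φ x) := by
    intro n
    induction n with
    | zero => intro x; rfl
    | succ n ih => intro x; rw [Function.iterate_succ_apply', Function.iterate_succ_apply', hφ, ih]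
  have h1 := card_le_period_mul_comps f (T.image φ) (2 * e) (by omega) (by
    intro s hs
    obtain ⟨x, hx, rfl⟩ := Finset.mem_image.1 hs
    rw [← hφit, hfixT x hx])
  have h2 : T.card ≤ B * (T.image φ).card := by
    apply Finset.card_le_mul_card_image
    intro s _
    refine le_trans ?_ (hB s)
    rw [← Set.ncard_coe_finset]
    apply Set.ncard_le_ncard _ (Set.toFinite _)
    intro x hx
    simp only [Finset.coe_filter, Set.mem_setOf_eq] at hx
    exact hx.2
  have h3 : e ≤ q := Nat.totient_le q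
  have h4 : q * q ^ (k - 1) ≤ q * (2 * B * comps f) := by
    calc q * q ^ (k - 1) = q ^ k := by rw [← pow_succ']; congr 1; omega
      _ = T.card := hTcard.symm
      _ ≤ B * (T.image φ).card := h2
      _ ≤ B * (2 * e * comps f) := Nat.mul_le_mul_left _ h1
      _ ≤ B * (2 * q * comps f) := by gcongr
      _ = _ := by ring
  exact Nat.le_of_mul_le_mul_left h4 hq0

end Pool.Agent.Lib.MP_05805c_nt
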