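import Pool.Agent.Lib.MP_05805c_nt.L35.Sym
import Pool.Agent.Lib.MP_05805c_nt.L35.DynR
import Pool.Agent.Lib.MP_05805c_nt.Pointwise

/-!
# From a base map to the number of components of a morphism modulo `p`
-/

set_option autoImplicit false

namespace Pool.Agent.Lib.MP_05805c_nt

open Function WeierstrassCurve.Affine
open scoped LinearAlgebra.Projectivization

section fibre

variable {K : Type*} [Field K] {k : ℕ}

/-- the point of `ℙ^k` of an unordered tuple of points of the curve -/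
noncomputable def phik (D : K) (hD : D ≠ 0) {W : WeierstrassCurve.Affine K} (P : Fin k → W.Point) :
    ℙ K (Fin (k + 1) → K) :=
  Projectivization.mk K (symc fun l => phi1 D (P l)) (symc_ne_zero _ fun l => phi1_ne_zero hD (P l))

theorem phik_fibre (D : K) (hD : D ≠ 0) {W : WeierstrassCurve.Affine K} [Finite W.Point] (s : ℙ K (Fin (k + 1) → K)) :
    {P : Fin k → W.Point | phik D hD P = s}.ncard ≤ (2 * k) ^ k := by
  classical
  rcases Set.eq_empty_or_nonempty {P : Fin k → W.Point | phik D hD P = s} with h | ⟨P₀, hP₀⟩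
  · rw [h, Set.ncard_empty]
    exact Nat.zero_le _
  set T : Finset W.Point := Finset.univ.image (fun z : Fin 2 × Fin k => if z.1 = 0 then P₀ z.2 else -P₀ z.2) with hT
  have hTc : T.card ≤ 2 * k := by
    refine Finset.card_image_le.trans ?_
    simp
  have hsub : {P : Fin k → W.Point | phik D hD P = s} ⊆ ((Fintype.piFinset fun _ : Fin k => T : Finset _) : Set (Fin k → W.Point)) := by
    intro P hP
    rw [Finset.mem_coe, Fintype.mem_piFinset]
    intro l
    have h1 : phik D hD P = phik D hD P₀ := by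
      rw [Set.mem_setOf_eq] at hP hP₀
      rw [hP, hP₀]
    unfold phik at h1
    rw [Projectivization.mk_eq_mk_iff'] at h1
    obtain ⟨u, hu⟩ := h1
    have hu0 : u ≠ 0 := by
      rintro rfl
      rw [zero_smul] at hu
      exact symc_ne_zero _ (fun l => phi1_ne_zero hD (P l)) hu.symm
    obtain ⟨l', hl'⟩ := symc_fibre (fun l => phi1 D (P₀ l)) (fun l => phi1 D (P l)) u hu.symm l
    have h2 := hl'.resolve_right hu0
    rw [hT, Finset.mem_image]
    rcases phi1_fibre hD (P₀ l') (P l) h2 with h3 | h3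
    · exact ⟨(0, l'), Finset.mem_univ _, by simp [h3]⟩
    · exact ⟨(1, l'), Finset.mem_univ _, by simp [h3]⟩
  refine (Set.ncard_le_ncard hsub (Finset.finite_toSet _)).trans ?_
  rw [Set.ncard_coe_finset, Fintype.card_piFinset]
  simp only [Finset.prod_const, Finset.card_univ, Fintype.card_fin]
  exact Nat.pow_le_pow_left hTc k

end fibre

section local_

variable {p : ℕ} [Fact p.Prime] {N m k : ℕ}

/-- on the invariant subspace the first `k + 1` coordinates follow `M` -/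
def LocalBase (hkN : k + 1 ≤ N + 1) (m : ℕ) (F : Fin (N + 1) → MvPolynomial (Fin (N + 1)) ℤ) (D : ZMod p)
    (W : WeierstrassCurve.Affine (ZMod p)) (M : (Fin k → W.Point) → (Fin k → W.Point)) : Prop :=
  ∀ (P : Fin k → W.Point) (v : Fin (N + 1) → ZMod p),
    (∀ i : Fin (k + 1), v (Fin.castLE hkN i) = symc (fun l => phi1 D (P l)) i) →
    (∀ i : Fin (N + 1), m < (i : ℕ) → v i = 0) →
    ∃ u : ZMod p, u ≠ 0 ∧ ∀ i : Fin (k + 1), evalMod p F v (Fin.castLE hkN i) = u * symc (fun l => phi1 D (M P l)) i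

theorem evalMod_smul {d : ℕ} (F : Fin (N + 1) → MvPolynomial (Fin (N + 1)) ℤ) (hF : ∀ i, (F i).IsHomogeneous d)
    (w : ZMod p) (v : Fin (N + 1) → ZMod p) : evalMod p F (w • v) = w ^ d • evalMod p F v := by
  funext i
  unfold evalMod
  rw [Pi.smul_apply, smul_eq_mul, MvPolynomial.aeval_def, MvPolynomial.aeval_def, MvPolynomial.eval₂_eq',
    MvPolynomial.eval₂_eq', Finset.mul_sum]
  refine Finset.sum_congr rfl fun e he => ?_
  have h1 : ∑ j, e j = d := by
    have h2 := hF i (MvPolynomial.mem_support_iff.1 he)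
    simpa [Finsupp.weight_apply, Finsupp.sum_fintype] using h2
  have h3 : ∏ j, (w • v) j ^ e j = w ^ d * ∏ j, v j ^ e j := by
    rw [← h1, ← Finset.prod_pow_eq_pow_sum, ← Finset.prod_mul_distrib]
    refine Finset.prod_congr rfl fun j _ => ?_
    rw [Pi.smul_apply, smul_eq_mul, mul_pow]
  rw [h3]
  ring

theorem phik_eq_iff (D : ZMod p) (hD : D ≠ 0) {W : WeierstrassCurve.Affine (ZMod p)} (P Q : Fin k → W.Point) :
    phik D hD P = phik D hD Q ↔ ∃ u : ZMod p, u ≠ 0 ∧
      (symc fun l => phi1 D (P l)) = u • symc fun l => phi1 D (Q l) := by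
  unfold phik
  rw [Projectivization.mk_eq_mk_iff']
  refine ⟨?_, ?_⟩
  · rintro ⟨u, hu⟩
    refine ⟨u, ?_, hu.symm⟩
    rintro rfl
    rw [zero_smul] at hu
    exact symc_ne_zero _ (fun l => phi1_ne_zero hD (P l)) hu.symm
  · rintro ⟨u, _, hu⟩
    exact ⟨u, hu.symm⟩

theorem localBase_smul (hkN : k + 1 ≤ N + 1) {d : ℕ} {F : Fin (N + 1) → MvPolynomial (Fin (N + 1)) ℤ}
    (hF : ∀ i, (F i).IsHomogeneous d) {D : ZMod p} {W : WeierstrassCurve.Affine (ZMod p)}
    {M : (Fin k → W.Point) → (Fin k → W.Point)} (hL : LocalBase hkN m F D W M) (P : Fin k → W.Point) (w : ZMod p)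
    (hw : w ≠ 0) (v : Fin (N + 1) → ZMod p)
    (hv : ∀ i : Fin (k + 1), v (Fin.castLE hkN i) = w * symc (fun l => phi1 D (P l)) i)
    (hv0 : ∀ i : Fin (N + 1), m < (i : ℕ) → v i = 0) :
    ∃ u : ZMod p, u ≠ 0 ∧ ∀ i : Fin (k + 1), evalMod p F v (Fin.castLE hkN i) = u * symc (fun l => phi1 D (M P l)) i := by
  obtain ⟨u, hu, h⟩ := hL P (w⁻¹ • v) (fun i => by
    rw [Pi.smul_apply, smul_eq_mul, hv, inv_mul_cancel_left₀ hw]) (fun i hi => by
    rw [Pi.smul_apply, hv0 i hi, smul_zero])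
  refine ⟨w ^ d * u, mul_ne_zero (pow_ne_zero _ hw) hu, fun i => ?_⟩
  have h1 : v = w • (w⁻¹ • v) := by rw [smul_inv_smul₀ hw]
  rw [h1, evalMod_smul F hF, Pi.smul_apply, smul_eq_mul, h i]
  ring

theorem local_bound (hk : 1 ≤ k) (hkN : k + 1 ≤ N + 1) (hkm : k ≤ m) {d : ℕ}
    (F : Fin (N + 1) → MvPolynomial (Fin (N + 1)) ℤ) (hF : ∀ i, (F i).IsHomogeneous d)
    (hsub : ∀ i : Fin (N + 1), m < (i : ℕ) → F i ∈ tailIdeal N m) (D : ZMod p) (hD : D ≠ 0)
    (W : WeierstrassCurve.Affine (ZMod p)) [Finite W.Point] (M : (Fin k → W.Point) → (Fin k → W.Point)) (r : ℕ)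
    (hr : 1 ≤ r) (z : Fin k → W.Point)
    (hM : ∀ x, M (M (x + z)) = r • x + z) (hL : LocalBase hkN m F D W M) :
    ∃ u q : ℕ, Nat.card W.Point = u * q ∧ (∀ ℓ : ℕ, ℓ.Prime → ℓ ∣ u → ℓ ∣ r) ∧
      q ^ (k - 1) ≤ 2 * (2 * k) ^ k * comps (redMap p F) := by
  classical
  -- a vector extending the coordinates of a tuple
  let ext : (Fin (k + 1) → ZMod p) → (Fin (N + 1) → ZMod p) := fun v i => if h : (i : ℕ) < k + 1 then v ⟨i, h⟩ else 0
  have hext : ∀ (v : Fin (k + 1) → ZMod p) (i : Fin (k + 1)), ext v (Fin.castLE hkN i) = v i := by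
    intro v i
    have h : ((Fin.castLE hkN i : Fin (N + 1)) : ℕ) < k + 1 := i.2
    simp only [ext, dif_pos h]
    rfl
  have hext0 : ∀ (v : Fin (k + 1) → ZMod p) (i : Fin (N + 1)), m < (i : ℕ) → ext v i = 0 := by
    intro v i hi
    simp only [ext]
    rw [dif_neg (by omega)]
  -- the base map is well defined
  have hwd : ∀ P Q : Fin k → W.Point, phik D hD P = phik D hD Q → phik D hD (M P) = phik D hD (M Q) := by
    intro P Q h
    obtain ⟨u, hu, h1⟩ := (phik_eq_iff D hD P Q).1 h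
    obtain ⟨u₁, hu₁, h2⟩ := hL P (ext (symc fun l => phi1 D (P l))) (hext _) (hext0 _)
    obtain ⟨u₂, hu₂, h3⟩ := localBase_smul hkN hF hL Q u hu (ext (symc fun l => phi1 D (P l)))
      (fun i => by rw [hext, h1]; rfl) (hext0 _)
    rw [phik_eq_iff]
    refine ⟨u₁⁻¹ * u₂, mul_ne_zero (inv_ne_zero hu₁) hu₂, ?_⟩
    funext i
    have h4 := (h2 i).symm.trans (h3 i)
    rw [Pi.smul_apply, smul_eq_mul, mul_assoc, ← h4, inv_mul_cancel_left₀ hu₁]
  set S : Set (ℙ (ZMod p) (Fin (k + 1) → ZMod p)) := Set.range (phik D hD (W := W) (k := k)) with hS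
  let f : S → S := fun s => ⟨phik D hD (M s.2.choose), ⟨_, rfl⟩⟩
  have hf : ∀ P : Fin k → W.Point, f ⟨phik D hD P, ⟨P, rfl⟩⟩ = ⟨phik D hD (M P), ⟨_, rfl⟩⟩ := by
    intro P
    apply Subtype.ext
    change phik D hD (M _) = phik D hD (M P)
    apply hwd
    exact (⟨P, rfl⟩ : ∃ y, phik D hD y = phik D hD P).choose_spec
  -- the invariant set above
  let V : Set (ℙ (ZMod p) (Fin (N + 1) → ZMod p)) := {x | (∀ j : Fin (N + 1), m < (j : ℕ) → x.rep j = 0) ∧
    ∃ (P : Fin k → W.Point) (w : ZMod p), w ≠ 0 ∧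
      ∀ i : Fin (k + 1), x.rep (Fin.castLE hkN i) = w * symc (fun l => phi1 D (P l)) i}
  have hstep : ∀ x : ℙ (ZMod p) (Fin (N + 1) → ZMod p), (∀ j : Fin (N + 1), m < (j : ℕ) → x.rep j = 0) →
      ∀ (P : Fin k → W.Point) (w : ZMod p), w ≠ 0 →
      (∀ i : Fin (k + 1), x.rep (Fin.castLE hkN i) = w * symc (fun l => phi1 D (P l)) i) →
      (∀ j : Fin (N + 1), m < (j : ℕ) → (redMap p F x).rep j = 0) ∧ ∃ w' : ZMod p, w' ≠ 0 ∧
        ∀ i : Fin (k + 1), (redMap p F x).rep (Fin.castLE hkN i) = w' * symc (fun l => phi1 D (M P l)) i := by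
    intro x hx P w hw hP
    obtain ⟨u, hu, h⟩ := localBase_smul hkN hF hL P w hw x.rep hP hx
    have hne : evalMod p F x.rep ≠ 0 := by
      intro h0
      have h1 : symc (fun l => phi1 D (M P l)) = 0 := by
        funext i
        have h2 := h i
        rw [h0] at h2
        exact (mul_eq_zero.1 h2.symm).resolve_left hu
      exact symc_ne_zero _ (fun l => phi1_ne_zero hD _) h1
    have hred : redMap p F x = Projectivization.mk (ZMod p) (evalMod p F x.rep) hne := by
      unfold redMap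
      rw [dif_pos hne]
    obtain ⟨c, hc⟩ := Projectivization.exists_smul_eq_mk_rep (ZMod p) (evalMod p F x.rep) hne
    rw [hred, ← hc]
    refine ⟨fun j hj => ?_, c * u, mul_ne_zero c.ne_zero hu, fun i => ?_⟩
    · have h1 : evalMod p F x.rep j = 0 := aeval_tail (hsub j hj) _ hx
      rw [Pi.smul_apply, h1, smul_zero]
    · rw [Pi.smul_apply, Units.smul_def, smul_eq_mul, h i]
      ring
  have hV : ∀ x ∈ V, redMap p F x ∈ V := by
    rintro x ⟨hx, P, w, hw, hP⟩
    obtain ⟨h1, w', hw', h2⟩ := hstep x hx P w hw hP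
    exact ⟨h1, M P, w', hw', h2⟩
  let π : V → S := fun x => ⟨phik D hD x.2.2.choose, ⟨_, rfl⟩⟩
  have hπ : ∀ (x : V) (P : Fin k → W.Point) (w : ZMod p), w ≠ 0 →
      (∀ i : Fin (k + 1), x.1.rep (Fin.castLE hkN i) = w * symc (fun l => phi1 D (P l)) i) →
      π x = ⟨phik D hD P, ⟨_, rfl⟩⟩ := by
    intro x P w hw hP
    apply Subtype.ext
    change phik D hD x.2.2.choose = phik D hD P
    obtain ⟨w', hw', h'⟩ := x.2.2.choose_spec
    rw [phik_eq_iff]
    refine ⟨w'⁻¹ * w, mul_ne_zero (inv_ne_zero hw') hw, ?_⟩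
    funext i
    rw [Pi.smul_apply, smul_eq_mul, mul_assoc, ← hP i, h' i, inv_mul_cancel_left₀ hw']
  have hsemi : ∀ x : V, π ⟨redMap p F x, hV x x.2⟩ = f (π x) := by
    rintro ⟨x, hx, P, w, hw, hP⟩
    obtain ⟨h1, w', hw', h2⟩ := hstep x hx P w hw hP
    rw [hπ _ (M P) w' hw' h2, hπ ⟨x, hx, P, w, hw, hP⟩ P w hw hP, hf]
  have hsurj : Function.Surjective π := by
    rintro ⟨_, P, rfl⟩
    have hne : ext (symc fun l => phi1 D (P l)) ≠ 0 := by
      intro h
      apply symc_ne_zero _ (fun l => phi1_ne_zero hD (P l))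
      funext i
      have h5 := congrFun h (Fin.castLE hkN i)
      rw [hext] at h5
      exact h5
    obtain ⟨c, hc⟩ := Projectivization.exists_smul_eq_mk_rep (ZMod p) (ext (symc fun l => phi1 D (P l))) hne
    have h1 : ∀ i : Fin (k + 1), (Projectivization.mk (ZMod p) _ hne).rep (Fin.castLE hkN i) =
        (c : ZMod p) * symc (fun l => phi1 D (P l)) i := by
      intro i
      rw [← hc, Pi.smul_apply, Units.smul_def, smul_eq_mul, hext]
    have hmem : Projectivization.mk (ZMod p) _ hne ∈ V := by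
      refine ⟨fun j hj => ?_, P, c, c.ne_zero, h1⟩
      rw [← hc, Pi.smul_apply, hext0 _ j hj, smul_zero]
    exact ⟨⟨_, hmem⟩, hπ ⟨_, hmem⟩ P c c.ne_zero h1⟩
  obtain ⟨u, q, hcard, hu, hq⟩ := dynR hk M r hr z hM f (fun P => (⟨phik D hD P, ⟨P, rfl⟩⟩ : S)) (fun P => (hf P).symm)
    ((2 * k) ^ k) (by
      intro s
      refine le_trans (Set.ncard_le_ncard ?_ (Set.toFinite _)) (phik_fibre D hD s.1)
      intro P hP
      exact congrArg Subtype.val hP)
  refine ⟨u, q, hcard, hu, hq.trans (Nat.mul_le_mul_left _ ?_)⟩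
  refine le_trans ?_ (comps_restrict_le (redMap p F) V hV)
  exact comps_le_of_semiconj _ f π hsurj hsemi

end local_

end Pool.Agent.Lib.MP_05805c_nt
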