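import Pool.Agent.Lib.MP_05805c_nt.L35.SumDiff

/-!
# The numbers of points of a curve and of its quadratic twist
-/

set_option autoImplicit false

namespace Pool.Agent.Lib.MP_05805c_nt

open WeierstrassCurve.Affine

theorem shortW_equation {K : Type*} [Field K] (a b x y : K) :
    (shortW a b).Equation x y ↔ y ^ 2 = x ^ 3 + a * x + b := by
  rw [equation_iff]
  simp [shortW]

theorem shortW_nonsingular {K : Type*} [Field K] (h2 : (2 : K) ≠ 0) (a b x y : K) (hΔ : 4 * a ^ 3 + 27 * b ^ 2 ≠ 0) :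
    (shortW a b).Nonsingular x y ↔ y ^ 2 = x ^ 3 + a * x + b := by
  rw [← shortW_equation]
  refine ⟨fun h => h.1, fun h => ?_⟩
  refine (equation_iff_nonsingular_of_Δ_ne_zero ?_).1 h
  have h3 : (shortW a b).Δ = -16 * (4 * a ^ 3 + 27 * b ^ 2) := by
    simp [shortW, WeierstrassCurve.Δ, WeierstrassCurve.b₂, WeierstrassCurve.b₄, WeierstrassCurve.b₆, WeierstrassCurve.b₈]
    ring
  rw [h3]
  refine mul_ne_zero ?_ hΔ
  have : (-16 : K) = -(2 ^ 4) := by norm_num
  rw [this]
  exact neg_ne_zero.2 (pow_ne_zero _ h2)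

theorem card_shortW {F : Type*} [Field F] [Fintype F] [DecidableEq F] (hF : ringChar F ≠ 2) (a b : F)
    (hΔ : 4 * a ^ 3 + 27 * b ^ 2 ≠ 0) :
    (Nat.card (shortW a b).Point : ℤ) = 1 + ∑ x : F, (quadraticChar F (x ^ 3 + a * x + b) + 1) := by
  have h2 : (2 : F) ≠ 0 := Ring.two_ne_zero hF
  have h1 : Nat.card (shortW a b).Point = 1 + Nat.card {xy : F × F // (shortW a b).Nonsingular xy.1 xy.2} := by
    rw [Nat.card_congr (nonsingularPointEquiv (shortW a b))]
    have : Finite {xy : F × F // (shortW a b).Nonsingular xy.1 xy.2} := inferInstance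
    rw [add_comm]
    exact Finite.card_option
  have h3 : Nat.card {xy : F × F // (shortW a b).Nonsingular xy.1 xy.2} =
      ∑ x : F, ({y : F | y ^ 2 = x ^ 3 + a * x + b}.toFinset).card := by
    rw [Nat.card_congr (Equiv.subtypeEquivRight (q := fun xy : F × F => xy.2 ^ 2 = xy.1 ^ 3 + a * xy.1 + b)
      fun xy => shortW_nonsingular h2 a b xy.1 xy.2 hΔ), Nat.card_eq_fintype_card, Fintype.card_subtype]
    rw [Finset.card_filter, Fintype.sum_prod_type]
    refine Finset.sum_congr rfl fun x _ => ?_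
    rw [← Finset.card_filter]
    congr 1
    ext y
    simp
  rw [h1, h3]
  push_cast
  congr 1
  refine Finset.sum_congr rfl fun x _ => ?_
  exact quadraticChar_card_sqrts hF _

/-- a curve and its quadratic twist have `2 #F + 2` points together -/
theorem card_add_twist {F : Type*} [Field F] [Fintype F] [DecidableEq F] (hF : ringChar F ≠ 2) (a b D : F)
    (hD : ¬ IsSquare D) (hΔ : 4 * a ^ 3 + 27 * b ^ 2 ≠ 0) :
    Nat.card (shortW a b).Point + Nat.card (shortW (a * D ^ 2) (b * D ^ 3)).Point = 2 * Fintype.card F + 2 := by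
  have hD0 : D ≠ 0 := fun h => hD (h ▸ IsSquare.zero)
  have hΔ' : 4 * (a * D ^ 2) ^ 3 + 27 * (b * D ^ 3) ^ 2 ≠ 0 := by
    have : 4 * (a * D ^ 2) ^ 3 + 27 * (b * D ^ 3) ^ 2 = D ^ 6 * (4 * a ^ 3 + 27 * b ^ 2) := by ring
    rw [this]
    exact mul_ne_zero (pow_ne_zero _ hD0) hΔ
  have h1 := card_shortW hF a b hΔ
  have h2 := card_shortW hF (a * D ^ 2) (b * D ^ 3) hΔ'
  have h3 : ∑ x : F, (quadraticChar F (x ^ 3 + a * D ^ 2 * x + b * D ^ 3) + 1) =
      ∑ x : F, (-quadraticChar F (x ^ 3 + a * x + b) + 1) := by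
    rw [← Equiv.sum_comp (Equiv.mulLeft₀ D hD0)]
    refine Finset.sum_congr rfl fun x _ => ?_
    congr 1
    have h4 : (Equiv.mulLeft₀ D hD0 x) ^ 3 + a * D ^ 2 * (Equiv.mulLeft₀ D hD0 x) + b * D ^ 3 =
        D ^ 3 * (x ^ 3 + a * x + b) := by
      simp
      ring
    rw [h4, map_mul, map_pow, quadraticChar_neg_one_iff_not_isSquare.2 hD]
    norm_num
  rw [h3] at h2
  have h5 : ((Nat.card (shortW a b).Point + Nat.card (shortW (a * D ^ 2) (b * D ^ 3)).Point : ℕ) : ℤ) =
      ((2 * Fintype.card F + 2 : ℕ) : ℤ) := by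
    push_cast
    rw [h1, h2, Finset.sum_add_distrib, Finset.sum_add_distrib, Finset.sum_neg_distrib]
    simp
    ring
  exact_mod_cast h5

end Pool.Agent.Lib.MP_05805c_nt
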