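import Pool.Agent.Lib.MP_05805c_nt.L35.Sym
import Pool.Agent.Lib.MP_05805c_nt.L35.Count

/-!
# Chains of pairs of forms give the x-coordinates of `i P + T`
-/

set_option autoImplicit false

namespace Pool.Agent.Lib.MP_05805c_nt

open WeierstrassCurve.Affine

/-- the value of a pair of polynomials in two variables -/
noncomputable def ev2 {R : Type*} [CommRing R] (G : Fin 2 → MvPolynomial (Fin 2) ℤ) (x : R × R) : R × R :=
  (MvPolynomial.eval₂ (Int.castRingHom R) ![x.1, x.2] (G 0), MvPolynomial.eval₂ (Int.castRingHom R) ![x.1, x.2] (G 1))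

theorem ev2_map {R S : Type*} [CommRing R] [CommRing S] (f : R →+* S) (G : Fin 2 → MvPolynomial (Fin 2) ℤ) (x : R × R) :
    ev2 G (f x.1, f x.2) = (f (ev2 G x).1, f (ev2 G x).2) := by
  have h : ∀ i, MvPolynomial.eval₂ (Int.castRingHom S) ![f x.1, f x.2] (G i) =
      f (MvPolynomial.eval₂ (Int.castRingHom R) ![x.1, x.2] (G i)) := by
    intro i
    have h1 := MvPolynomial.eval₂_comp_left f (Int.castRingHom R) ![x.1, x.2] (G i)
    rw [h1]
    congr 1
    · exact RingHom.ext_int _ _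
    · funext l
      fin_cases l <;> rfl
  unfold ev2
  rw [h, h]

section

variable {R : Type*} [CommRing R]

theorem symc2_smul (u v : R) (x y : R × R) : symc ![u • x, v • y] = (u * v) • symc ![x, y] := by
  funext i
  rw [symc_two, Pi.smul_apply, symc_two]
  fin_cases i
  · simp; ring
  · simp; ring
  · simp; ring

theorem sd_smul' (a b u : R) (v : Fin 3 → R) : sd a b (u • v) = u ^ 2 • sd a b v := by
  funext i
  fin_cases i
  · simp [sd]; ring
  · simp [sd]; ring
  · simp [sd]; ring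

end

section

variable {K : Type*} [Field K]

theorem symc_cancel (κ : K) (y r z : K × K) (hz : z ≠ 0) (h : symc ![y, z] = κ • symc ![r, z]) : y = κ • r := by
  have h0 := congrFun h 0
  have h1 := congrFun h 1
  have h2 := congrFun h 2
  rw [Pi.smul_apply, symc_two, symc_two] at h0 h1 h2
  simp at h0 h1 h2
  by_cases hz1 : z.1 = 0
  · have hz2 : z.2 ≠ 0 := fun h3 => hz (Prod.ext hz1 h3)
    rw [hz1] at h0 h1
    refine Prod.ext ?_ ?_
    · have h3 : (y.1 - κ * r.1) * z.2 = 0 := by linear_combination h1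
      simpa using sub_eq_zero.1 ((mul_eq_zero.1 h3).resolve_right hz2)
    · have h3 : (y.2 - κ * r.2) * z.2 = 0 := by linear_combination h2
      simpa using sub_eq_zero.1 ((mul_eq_zero.1 h3).resolve_right hz2)
  · have h4 : y.1 = κ * r.1 := by
      have h3 : (y.1 - κ * r.1) * z.1 = 0 := by linear_combination h0
      exact sub_eq_zero.1 ((mul_eq_zero.1 h3).resolve_right hz1)
    refine Prod.ext (by simpa using h4) ?_
    have h3 : (y.2 - κ * r.2) * z.1 = 0 := by
      rw [h4] at h1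
      linear_combination h1
    simpa using sub_eq_zero.1 ((mul_eq_zero.1 h3).resolve_right hz1)

theorem symc_square (κ : K) (hκ : κ ≠ 0) (y r : K × K) (hr : r ≠ 0) (h : symc ![y, y] = κ • symc ![r, r]) :
    ∃ v : K, v ≠ 0 ∧ y = v • r := by
  have hne : symc ![y, y] ≠ 0 := by
    rw [h]
    refine smul_ne_zero hκ (symc_ne_zero _ fun l => ?_)
    fin_cases l <;> exact hr
  have hy : y ≠ 0 := by
    rintro rfl
    apply hne
    rw [symc_two]
    funext i
    fin_cases i <;> simp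
  obtain ⟨l', hl'⟩ := symc_fibre ![r, r] ![y, y] κ h 0
  have h1 : r.1 * y.2 = r.2 * y.1 := by
    have := hl'.resolve_right hκ
    fin_cases l' <;> simpa using this
  by_cases hr1 : r.1 = 0
  · have hr2 : r.2 ≠ 0 := fun h3 => hr (Prod.ext hr1 h3)
    have hy1 : y.1 = 0 := by
      rw [hr1, zero_mul] at h1
      exact (mul_eq_zero.1 h1.symm).resolve_left hr2
    have hy2 : y.2 ≠ 0 := fun h3 => hy (Prod.ext hy1 h3)
    refine ⟨y.2 / r.2, div_ne_zero hy2 hr2, Prod.ext ?_ ?_⟩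
    · rw [Prod.smul_fst, hr1, hy1, smul_zero]
    · rw [Prod.smul_snd, smul_eq_mul, div_mul_cancel₀ _ hr2]
  · have hy1 : y.1 ≠ 0 := by
      intro h3
      rw [h3, mul_zero] at h1
      exact hy (Prod.ext h3 ((mul_eq_zero.1 h1).resolve_left hr1))
    refine ⟨y.1 / r.1, div_ne_zero hy1 hr1, Prod.ext ?_ ?_⟩
    · rw [Prod.smul_fst, smul_eq_mul, div_mul_cancel₀ _ hr1]
    · rw [Prod.smul_snd, smul_eq_mul]
      field_simp
      linear_combination h1

theorem phi1_neg (D : K) {W : WeierstrassCurve.Affine K} (P : W.Point) : phi1 D (-P) = phi1 D P := by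
  rcases P with _ | ⟨x, y, h⟩
  · rfl
  · rfl

variable [DecidableEq K]

/-- the steps of a chain at one point -/
theorem chain_point (a b D : K) (hD : D ≠ 0) (h2 : (2 : K) ≠ 0) (T P : (shortW (a * D ^ 2) (b * D ^ 3)).Point)
    (hT : T + T = 0) (m : ℕ) (g : ℕ → K × K) (κ κ' : ℕ → K) (hκ : ∀ i < m, κ i ≠ 0 ∧ κ' i ≠ 0)
    (h0 : ∃ u : K, u ≠ 0 ∧ g 0 = u • phi1 D T)
    (h1 : κ' 0 • symc ![g 1, g 1] = κ 0 • sd a b (symc ![g 0, phi1 D P]))
    (hs : ∀ i, 1 ≤ i → i < m → κ' i • symc ![g (i + 1), g (i - 1)] = κ i • sd a b (symc ![g i, phi1 D P])) :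
    ∀ i ≤ m, ∃ u : K, u ≠ 0 ∧ g i = u • phi1 D (i • P + T) := by
  have hsd : ∀ Q : (shortW (a * D ^ 2) (b * D ^ 3)).Point, ∃ u : K, u ≠ 0 ∧
      sd a b (symc ![phi1 D Q, phi1 D P]) = u • symc ![phi1 D (Q + P), phi1 D (Q - P)] := by
    intro Q
    obtain ⟨u, hu, h⟩ := sd_phi1 a b D h2 ![Q, P]
    refine ⟨u, hu, ?_⟩
    have e1 : (fun l => phi1 D ((![Q, P] : Fin 2 → (shortW (a * D ^ 2) (b * D ^ 3)).Point) l)) =
        ![phi1 D Q, phi1 D P] := by
      funext l
      fin_cases l <;> rfl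
    have e2 : (fun l => phi1 D ((![(![Q, P] : Fin 2 → (shortW (a * D ^ 2) (b * D ^ 3)).Point) 0 +
        (![Q, P] : Fin 2 → (shortW (a * D ^ 2) (b * D ^ 3)).Point) 1,
        (![Q, P] : Fin 2 → (shortW (a * D ^ 2) (b * D ^ 3)).Point) 0 -
        (![Q, P] : Fin 2 → (shortW (a * D ^ 2) (b * D ^ 3)).Point) 1] :
        Fin 2 → (shortW (a * D ^ 2) (b * D ^ 3)).Point) l)) = ![phi1 D (Q + P), phi1 D (Q - P)] := by
      funext l
      fin_cases l <;> rfl
    rw [e1, e2] at h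
    exact h
  have step : ∀ (i : ℕ) (w : K), w ≠ 0 → g i = w • phi1 D (i • P + T) → i < m →
      ∃ u : K, u ≠ 0 ∧ κ i • sd a b (symc ![g i, phi1 D P]) =
        (κ' i * u) • symc ![phi1 D ((i + 1) • P + T), phi1 D (i • P + T - P)] := by
    intro i w hw hg hi
    obtain ⟨u, hu, h⟩ := hsd (i • P + T)
    have h3 := symc2_smul w 1 (phi1 D (i • P + T)) (phi1 D P)
    rw [one_smul, mul_one] at h3
    refine ⟨(κ' i)⁻¹ * (κ i * (w ^ 2 * u)), mul_ne_zero (inv_ne_zero (hκ i hi).2)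
      (mul_ne_zero (hκ i hi).1 (mul_ne_zero (pow_ne_zero _ hw) hu)), ?_⟩
    have e3 : (i + 1) • P + T = i • P + T + P := by rw [succ_nsmul]; abel
    rw [hg, h3, sd_smul', h, e3, smul_smul, smul_smul, mul_inv_cancel_left₀ (hκ i hi).2]
    congr 1
    ring
  have key : ∀ i, i ≤ m → (∃ u : K, u ≠ 0 ∧ g i = u • phi1 D (i • P + T)) ∧
      (i + 1 ≤ m → ∃ u : K, u ≠ 0 ∧ g (i + 1) = u • phi1 D ((i + 1) • P + T)) := by
    intro i
    induction i with
    | zero =>
      intro _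
      obtain ⟨w, hw, hg⟩ := h0
      have hg' : g 0 = w • phi1 D (0 • P + T) := by rw [zero_nsmul, zero_add]; exact hg
      refine ⟨⟨w, hw, hg'⟩, fun h => ?_⟩
      obtain ⟨u, hu, h3⟩ := step 0 w hw hg' (by omega)
      rw [← h1, mul_smul] at h3
      have h4 := smul_right_injective _ (hκ 0 (by omega)).2 h3
      have e4 : phi1 D (0 • P + T - P) = phi1 D ((0 + 1) • P + T) := by
        rw [← phi1_neg]
        congr 1
        have hT' : -T = T := by rw [neg_eq_iff_add_eq_zero]; exact hT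
        rw [zero_nsmul, zero_add, zero_add, one_nsmul, neg_sub, sub_eq_add_neg, hT']
      rw [e4] at h4
      exact symc_square u hu _ _ (phi1_ne_zero hD _) h4
    | succ i ih =>
      intro hi
      obtain ⟨⟨w0, hw0, hg0⟩, h5⟩ := ih (by omega)
      obtain ⟨w, hw, hg⟩ := h5 hi
      refine ⟨⟨w, hw, hg⟩, fun h => ?_⟩
      obtain ⟨u, hu, h3⟩ := step (i + 1) w hw hg (by omega)
      rw [← hs (i + 1) (by omega) (by omega), mul_smul] at h3
      have h4 := smul_right_injective _ (hκ (i + 1) (by omega)).2 h3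
      have e4 : (i + 1) • P + T - P = i • P + T := by rw [succ_nsmul]; abel
      rw [e4, Nat.add_sub_cancel, hg0] at h4
      have h6 := symc2_smul 1 w0 (g (i + 1 + 1)) (phi1 D (i • P + T))
      rw [one_smul, one_mul] at h6
      have h7 : symc ![g (i + 1 + 1), w0 • phi1 D (i • P + T)] =
          (u * w0⁻¹) • symc ![phi1 D ((i + 1 + 1) • P + T), w0 • phi1 D (i • P + T)] := by
        have h8 := symc2_smul 1 w0 (phi1 D ((i + 1 + 1) • P + T)) (phi1 D (i • P + T))
        rw [one_smul, one_mul] at h8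
        rw [h8, smul_smul, inv_mul_cancel_right₀ hw0]
        exact h4
      exact ⟨u * w0⁻¹, mul_ne_zero hu (inv_ne_zero hw0),
        symc_cancel _ _ _ _ (smul_ne_zero hw0 (phi1_ne_zero hD _)) h7⟩
  exact fun i hi => (key i hi).1

/-- the rational points of order at most two on the twists -/
theorem exists_torsion (a b e D : K) (hD : D ≠ 0) (h2 : (2 : K) ≠ 0) (hΔ : 4 * a ^ 3 + 27 * b ^ 2 ≠ 0)
    (he : e ^ 3 + a * e + b = 0) :
    ∃ T : (shortW (a * D ^ 2) (b * D ^ 3)).Point, T + T = 0 ∧ ∃ u : K, u ≠ 0 ∧ (e, (1 : K)) = u • phi1 D T := by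
  have hΔ' : 4 * (a * D ^ 2) ^ 3 + 27 * (b * D ^ 3) ^ 2 ≠ 0 := by
    have : 4 * (a * D ^ 2) ^ 3 + 27 * (b * D ^ 3) ^ 2 = D ^ 6 * (4 * a ^ 3 + 27 * b ^ 2) := by ring
    rw [this]
    exact mul_ne_zero (pow_ne_zero _ hD) hΔ
  have hns : (shortW (a * D ^ 2) (b * D ^ 3)).Nonsingular (e * D) 0 := by
    rw [shortW_nonsingular h2 _ _ _ _ hΔ']
    linear_combination -D ^ 3 * he
  refine ⟨Point.some (e * D) 0 hns, ?_, D⁻¹, inv_ne_zero hD, ?_⟩
  · apply Point.add_self_of_Y_eq
    simp [negY, shortW]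
  · refine Prod.ext ?_ ?_
    · simp [phi1]
      field_simp
    · simp [phi1]
      field_simp

end

end Pool.Agent.Lib.MP_05805c_nt
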