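import Mathlib
import Pool.Agent.Lib.MP_05805c_nt.Comps2

/-!
# Components of quotients of maps `M` of `A^k` with `M² = 2^t`

`A` finite abelian, `A'` the subgroup of the elements of odd order, `q = #A'`: `M` permutes `A'^k` and
`M^(2 φ(q)) = 1` there, so a quotient of `M` with fibres of at most `B` elements has at least `q^(k-1)/(2B)` components.
-/

set_option autoImplicit false

namespace Pool.Agent.Lib.MP_05805c_nt

open Function

/-- a periodic subset with common period `n` has at most `n * comps f` elements -/
theorem card_le_period_mul_comps {S : Type*} [Finite S] (f : S → S) (T : Finset S) (n : ℕ) (hn : 0 < n)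
    (hT : ∀ s ∈ T, f^[n] s = s) : T.card ≤ n * comps f := by
  classical
  have := finite_comps f
  have := Fintype.ofFinite (fgraph f).ConnectedComponent
  have hmul : ∀ s ∈ T, ∀ j : ℕ, f^[n * j] s = s := by
    intro s hs j
    rw [Function.iterate_mul]
    exact Function.iterate_fixed (hT s hs) j
  have key : ∀ c ∈ (Finset.univ : Finset (fgraph f).ConnectedComponent),
      (T.filter (fun s => (fgraph f).connectedComponentMk s = c)).card ≤ n := by
    intro c _
    by_cases hc : ∃ s ∈ T, (fgraph f).connectedComponentMk s = c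
    · obtain ⟨s, hs, rfl⟩ := hc
      have hsub : T.filter (fun s' => (fgraph f).connectedComponentMk s' = (fgraph f).connectedComponentMk s) ⊆
          (Finset.range n).image (fun l => f^[l] s) := by
        intro s' hs'
        rw [Finset.mem_filter] at hs'
        obtain ⟨i, j, hij⟩ := exists_iterate_eq_of_reachable f (SimpleGraph.ConnectedComponent.exact hs'.2)
        -- f^[i] s' = f^[j] s
        have h1 : f^[(n * i - i) + j] s = s' := by
          rw [Function.iterate_add_apply, ← hij, ← Function.iterate_add_apply]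
          have h2 : n * i - i + i = n * i := Nat.sub_add_cancel (Nat.le_mul_of_pos_left i hn)
          rw [h2]
          exact hmul s' hs'.1 i
        rw [Finset.mem_image]
        refine ⟨((n * i - i) + j) % n, Finset.mem_range.2 (Nat.mod_lt _ hn), ?_⟩
        rw [← h1]
        conv_rhs => rw [← Nat.mod_add_div ((n * i - i) + j) n, Function.iterate_add_apply, hmul s hs]
      refine (Finset.card_le_card hsub).trans (Finset.card_image_le.trans ?_)
      rw [Finset.card_range]
    · have : T.filter (fun s => (fgraph f).connectedComponentMk s = c) = ∅ := by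
        rw [Finset.filter_eq_empty_iff]
        intro s hs h
        exact hc ⟨s, hs, h⟩
      rw [this]
      simp
  have h1 := Finset.card_le_mul_card_image_of_maps_to (s := T)
    (t := (Finset.univ : Finset (fgraph f).ConnectedComponent)) (f := fun s => (fgraph f).connectedComponentMk s)
    (fun _ _ => Finset.mem_univ _) n key
  unfold comps
  rw [Nat.card_eq_fintype_card]
  simpa using h1

/-- the elements of odd order -/
theorem exists_odd_part (A : Type*) [AddCommGroup A] [Finite A] :
    ∃ (w w' : ℕ) (A' : AddSubgroup A), Nat.card A = 2 ^ w * Nat.card A' ∧ Odd (Nat.card A') ∧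
      (A' : Set A) = Set.range fun x : A => 2 ^ w' • x := by
  obtain ⟨w, q, hq, hn⟩ := Nat.exists_eq_two_pow_mul_odd (n := Nat.card A) Nat.card_pos.ne'
  let g : A →+ A := nsmulAddMonoidHom (2 ^ w)
  have hker : ∃ v, Nat.card g.ker = 2 ^ v := by
    have h1 : IsPGroup 2 (Multiplicative g.ker) := by
      intro x
      refine ⟨w, ?_⟩
      have h2 : 2 ^ w • (Multiplicative.toAdd x) = 0 := by
        apply Subtype.ext
        have h3 := (Multiplicative.toAdd x).2
        rw [AddMonoidHom.mem_ker] at h3
        simpa [g] using h3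
      apply Multiplicative.toAdd.injective
      rw [toAdd_pow, toAdd_one]
      exact h2
    obtain ⟨v, hv⟩ := IsPGroup.iff_card.1 h1
    refine ⟨v, ?_⟩
    rw [← hv]
    rfl
  obtain ⟨v, hv⟩ := hker
  have hcard : Nat.card A = 2 ^ v * Nat.card g.range := by
    rw [← hv, mul_comm]
    have h1 := AddSubgroup.card_mul_index g.ker
    rw [AddSubgroup.index_ker] at h1
    rw [← h1, mul_comm]
  refine ⟨v, w, g.range, hcard, ?_, ?_⟩
  · rw [← Nat.not_even_iff_odd]
    intro h2
    have h3 : 2 ∣ Nat.card g.range := h2.two_dvd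
    have : Fact (Nat.Prime 2) := ⟨Nat.prime_two⟩
    obtain ⟨x, hx⟩ := exists_prime_addOrderOf_dvd_card' 2 h3
    obtain ⟨y, hy⟩ := AddMonoidHom.mem_range.1 x.2
    have h4 : q • (x : A) = 0 := by
      rw [← hy]
      change q • (2 ^ w • y) = 0
      rw [← mul_nsmul, ← hn]
      exact card_nsmul_eq_zero'
    have h5 : q • x = 0 := Subtype.ext (by simpa using h4)
    have h6 := addOrderOf_dvd_of_nsmul_eq_zero h5
    rw [hx] at h6
    exact (Nat.not_even_iff_odd.2 hq) (even_iff_two_dvd.2 h6)
  · ext x
    simp [g]

theorem dyn {A : Type*} [AddCommGroup A] [Finite A] {k : ℕ} (hk : 1 ≤ k) (M : (Fin k → A) →+ (Fin k → A)) (t : ℕ)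
    (hM : ∀ x, M (M x) = 2 ^ t • x) {S : Type*} [Finite S] (f : S → S) (φ : (Fin k → A) → S)
    (hφ : ∀ x, φ (M x) = f (φ x)) (B : ℕ) (hB : ∀ s, {x | φ x = s}.ncard ≤ B) :
    ∃ w q : ℕ, Nat.card A = 2 ^ w * q ∧ q ^ (k - 1) ≤ 2 * B * comps f := by
  classical
  obtain ⟨w, w', A', hcard, hodd, hrange⟩ := exists_odd_part A
  set q := Nat.card A' with hq
  have hq0 : 0 < q := Nat.card_pos
  refine ⟨w, q, hcard, ?_⟩
  have := Fintype.ofFinite A
  have := Fintype.ofFinite A'
  set e := Nat.totient q with he
  have he0 : 0 < e := Nat.totient_pos.2 hq0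
  -- `2^(t e)` acts trivially on `A'`
  have hfix : ∀ x ∈ A', (2 ^ t) ^ e • x = x := by
    intro x hx
    have h1 : ((2 ^ t) ^ e) ≡ 1 [MOD q] := by
      apply Nat.ModEq.pow_totient
      apply Nat.Coprime.pow_left
      exact hodd.coprime_two_left
    have h2 : 1 ≤ (2 ^ t) ^ e := Nat.one_le_two_pow.trans (Nat.le_self_pow he0.ne' _) |>.trans le_rfl
    obtain ⟨j, hj⟩ := (Nat.modEq_iff_dvd' h2).1 h1.symm
    have h3 : (2 ^ t) ^ e = q * j + 1 := by omega
    have h4 : q • x = 0 := by
      have h5 : q • (⟨x, hx⟩ : A') = 0 := card_nsmul_eq_zero'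
      simpa using congrArg Subtype.val h5
    rw [h3, add_nsmul, one_nsmul, mul_nsmul, h4]
    simp
  -- the set `A'^k`
  set T : Finset (Fin k → A) := Finset.univ.filter fun x => ∀ i, x i ∈ A' with hT
  have hTcard : T.card = q ^ k := by
    have h1 : T.card = Fintype.card (Fin k → A') := by
      rw [← Fintype.card_subtype]
      apply Fintype.card_congr
      exact { toFun := fun x i => ⟨x.1 i, x.2 i⟩
              invFun := fun y => ⟨fun i => (y i : A), fun i => (y i).2⟩
              left_inv := fun x => rfl
              right_inv := fun y => rfl }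
    rw [h1, Fintype.card_fun, Fintype.card_fin, hq, Nat.card_eq_fintype_card]
  have hMM : ∀ (n : ℕ) (x : Fin k → A), M^[2 * n] x = (2 ^ t) ^ n • x := by
    intro n
    induction n with
    | zero => intro x; simp
    | succ n ih =>
      intro x
      have h1 : 2 * (n + 1) = 2 * n + 1 + 1 := by ring
      rw [h1, Function.iterate_succ_apply, Function.iterate_succ_apply, hM, ih, ← mul_nsmul, pow_succ]
      congr 1
      ring
  have hfixT : ∀ x ∈ T, M^[2 * e] x = x := by
    intro x hx
    rw [hMM]
    funext i
    rw [Pi.smul_apply]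
    exact hfix _ ((Finset.mem_filter.1 hx).2 i)
  have hφit : ∀ (n : ℕ) (x : Fin k → A), φ (M^[n] x) = f^[n] (φ x) := by
    intro n
    induction n with
    | zero => intro x; rfl
    | succ n ih => intro x; rw [Function.iterate_succ_apply', Function.iterate_succ_apply', hφ, ih]
  have h1 := card_le_period_mul_comps f (T.image φ) (2 * e) (by omega) (by
    intro s hs
    obtain ⟨x, hx, rfl⟩ := Finset.mem_image.1 hs
    rw [← hφit, hfixT x hx])
  have h2 : T.card ≤ B * (T.image φ).card := by
    apply Finset.card_le_mul_card_image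
    intro s _
    refine le_trans ?_ (hB s)
    rw [← Set.ncard_coe_finset]
    apply Set.ncard_le_ncard _ (Set.toFinite _)
    intro x hx
    simp only [Finset.coe_filter, Set.mem_setOf_eq] at hx
    exact hx.2
  have h3 : e ≤ q := Nat.totient_le q
  have h4 : q * q ^ (k - 1) ≤ q * (2 * B * comps f) := by
    calc q * q ^ (k - 1) = q ^ k := by rw [← pow_succ']; congr 1; omega
      _ = T.card := hTcard.symm
      _ ≤ B * (T.image φ).card := h2
      _ ≤ B * (2 * e * comps f) := Nat.mul_le_mul_left _ h1
      _ ≤ B * (2 * q * comps f) := by gcongr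
      _ = _ := by ring
  exact Nat.le_of_mul_le_mul_left h4 hq0

end Pool.Agent.Lib.MP_05805c_nt
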