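import Pool.Agent.Lib.MP_05805c_nt.L35.SumDiff

/-!
# Explicit quadratic morphisms of `ℙ^N` over the sum and difference map
-/

set_option autoImplicit false

namespace Pool.Agent.Lib.MP_05805c_nt

open MvPolynomial

/-- `(q_0 : q_1 : q_2 : x_3² : … : x_N²)`, the `q_i(x_0, x_1, x_2)` the forms of sum and difference -/
noncomputable def sdEx (N : ℕ) (hN : 3 ≤ N + 1) (a b : ℤ) (i : Fin (N + 1)) : MvPolynomial (Fin (N + 1)) ℤ :=
  if h : (i : ℕ) < 3 then sd (C a) (C b) (fun l : Fin 3 => X (Fin.castLE hN l)) ⟨i, h⟩ else X i ^ 2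

private lemma homC {N : ℕ} (z : ℤ) (i j : Fin (N + 1)) : (C z * (X i * X j) : MvPolynomial (Fin (N + 1)) ℤ).IsHomogeneous 2 := by
  have h1 : (X i * X j : MvPolynomial (Fin (N + 1)) ℤ).IsHomogeneous (1 + 1) := (isHomogeneous_X _ _).mul (isHomogeneous_X _ _)
  have h2 := (isHomogeneous_C (Fin (N + 1)) z).mul h1
  simpa using h2

theorem sdEx_isHomogeneous (N : ℕ) (hN : 3 ≤ N + 1) (a b : ℤ) (i : Fin (N + 1)) : (sdEx N hN a b i).IsHomogeneous 2 := by
  unfold sdEx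
  by_cases h : (i : ℕ) < 3
  · rw [dif_pos h]
    generalize (⟨(i : ℕ), h⟩ : Fin 3) = l
    fin_cases l
    · have e : sd (C a) (C b) (fun l : Fin 3 => (X (Fin.castLE hN l) : MvPolynomial (Fin (N + 1)) ℤ)) 0 =
          ((C 1 * (X (Fin.castLE hN 0) * X (Fin.castLE hN 0)) - C (2 * a) * (X (Fin.castLE hN 0) * X (Fin.castLE hN 2))) -
            C (4 * b) * (X (Fin.castLE hN 1) * X (Fin.castLE hN 2))) + C (a ^ 2) * (X (Fin.castLE hN 2) * X (Fin.castLE hN 2)) := by
        simp only [sd, Matrix.cons_val_zero, map_mul, map_pow, map_one, map_ofNat]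
        ring
      change (sd (C a) (C b) (fun l : Fin 3 => (X (Fin.castLE hN l) : MvPolynomial (Fin (N + 1)) ℤ)) 0).IsHomogeneous 2
      rw [e]
      exact (((homC _ _ _).sub (homC _ _ _)).sub (homC _ _ _)).add (homC _ _ _)
    · have e : sd (C a) (C b) (fun l : Fin 3 => (X (Fin.castLE hN l) : MvPolynomial (Fin (N + 1)) ℤ)) 1 =
          (C 2 * (X (Fin.castLE hN 0) * X (Fin.castLE hN 1)) + C (2 * a) * (X (Fin.castLE hN 1) * X (Fin.castLE hN 2))) +
            C (4 * b) * (X (Fin.castLE hN 2) * X (Fin.castLE hN 2)) := by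
        simp only [sd, Matrix.cons_val_one, Matrix.cons_val_zero, map_mul, map_ofNat]
        ring
      change (sd (C a) (C b) (fun l : Fin 3 => (X (Fin.castLE hN l) : MvPolynomial (Fin (N + 1)) ℤ)) 1).IsHomogeneous 2
      rw [e]
      exact ((homC _ _ _).add (homC _ _ _)).add (homC _ _ _)
    · have e : sd (C a) (C b) (fun l : Fin 3 => (X (Fin.castLE hN l) : MvPolynomial (Fin (N + 1)) ℤ)) 2 =
          C 1 * (X (Fin.castLE hN 1) * X (Fin.castLE hN 1)) - C 4 * (X (Fin.castLE hN 0) * X (Fin.castLE hN 2)) := by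
        simp only [sd, Matrix.cons_val, map_one, map_ofNat]
        ring
      change (sd (C a) (C b) (fun l : Fin 3 => (X (Fin.castLE hN l) : MvPolynomial (Fin (N + 1)) ℤ)) 2).IsHomogeneous 2
      rw [e]
      exact (homC _ _ _).sub (homC _ _ _)
  · rw [dif_neg h]
    exact isHomogeneous_X_pow _ _

theorem sdEx_aeval {K : Type*} [CommRing K] [Algebra ℤ K] (N : ℕ) (hN : 3 ≤ N + 1) (a b : ℤ) (v : Fin (N + 1) → K) (l : Fin 3) :
    aeval v (sdEx N hN a b (Fin.castLE hN l)) = sd (a : K) (b : K) (fun l => v (Fin.castLE hN l)) l := by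
  have h : ((Fin.castLE hN l : Fin (N + 1)) : ℕ) < 3 := l.2
  unfold sdEx
  rw [dif_pos h]
  have e : (⟨((Fin.castLE hN l : Fin (N + 1)) : ℕ), h⟩ : Fin 3) = l := rfl
  rw [e]
  have e2 : ∀ z : ℤ, algebraMap ℤ K z = (z : K) := fun z => eq_intCast (algebraMap ℤ K) z
  fin_cases l <;> simp [sd, e2]

theorem sd_eq_zero {K : Type*} [Field K] (h2 : (2 : K) ≠ 0) (a b : K) (hΔ : 4 * a ^ 3 + 27 * b ^ 2 ≠ 0) (v : Fin 3 → K)
    (h : sd a b v = 0) : v = 0 := by
  by_contra hv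
  have hell : (shortW a b).IsElliptic := by
    constructor
    rw [isUnit_iff_ne_zero]
    have h3 : (shortW a b).Δ = -16 * (4 * a ^ 3 + 27 * b ^ 2) := by
      simp [shortW, WeierstrassCurve.Δ, WeierstrassCurve.b₂, WeierstrassCurve.b₄, WeierstrassCurve.b₆, WeierstrassCurve.b₈]
      ring
    rw [h3]
    refine mul_ne_zero ?_ hΔ
    have : (-16 : K) = -(2 ^ 4) := by norm_num
    rw [this]
    exact neg_ne_zero.2 (pow_ne_zero _ h2)
  apply WeierstrassCurve.addSubMap_ne_zero (shortW a b) hv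
  rw [← h]
  funext i
  fin_cases i
  · simp [WeierstrassCurve.addSubMap, sd, shortW, WeierstrassCurve.b₄, WeierstrassCurve.b₆, WeierstrassCurve.b₈]
    try ring
  · simp [WeierstrassCurve.addSubMap, sd, shortW, WeierstrassCurve.b₂, WeierstrassCurve.b₄, WeierstrassCurve.b₆]
    try ring
  · simp [WeierstrassCurve.addSubMap, sd]

theorem sdEx_noZero (N : ℕ) (hN : 3 ≤ N + 1) (a b : ℤ) (hab : 4 * a ^ 3 + 27 * b ^ 2 ≠ 0)
    (v : Fin (N + 1) → AlgebraicClosure ℚ) (hv : ∀ i, aeval v (sdEx N hN a b i) = 0) : v = 0 := by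
  have h1 : sd (a : AlgebraicClosure ℚ) (b : AlgebraicClosure ℚ) (fun l => v (Fin.castLE hN l)) = 0 := by
    funext l
    rw [← sdEx_aeval, hv]
    rfl
  have hΔ : 4 * (a : AlgebraicClosure ℚ) ^ 3 + 27 * (b : AlgebraicClosure ℚ) ^ 2 ≠ 0 := by
    exact_mod_cast hab
  have h2 := sd_eq_zero two_ne_zero _ _ hΔ _ h1
  funext i
  by_cases h : (i : ℕ) < 3
  · exact congrFun h2 ⟨i, h⟩
  · have h3 := hv i
    unfold sdEx at h3
    rw [dif_neg h, map_pow, aeval_X] at h3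
    exact pow_eq_zero_iff (two_ne_zero) |>.1 h3

theorem sdEx_base (N : ℕ) (hN : 3 ≤ N + 1) (a b : ℤ) (v : Fin (N + 1) → ℤ) (l : Fin 3) :
    eval v (sdEx N hN a b (Fin.castLE hN l)) = 1 * (sd a b)^[1] (fun l => v (Fin.castLE hN l)) l := by
  have h := sdEx_aeval N hN a b v l
  rw [one_mul, Function.iterate_one]
  simpa using h

end Pool.Agent.Lib.MP_05805c_nt
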