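import Pool.Agent.Lib.MP_05805c_nt.L35.GlobR
import Pool.Agent.Lib.MP_05805c_nt.L35.Example

/-!
# Explicit chains: the identity and duplication
-/

set_option autoImplicit false

namespace Pool.Agent.Lib.MP_05805c_nt

open MvPolynomial

/-- `x(O)`, `x(P)`, `x(2 P)` as pairs of forms -/
noncomputable def dupForms (a b : ℤ) (i : ℕ) : Fin 2 → MvPolynomial (Fin 2) ℤ :=
  if i = 0 then ![1, 0] else if i = 1 then ![X 0, X 1] else
    ![X 0 ^ 4 - C (2 * a) * X 0 ^ 2 * X 1 ^ 2 - C (8 * b) * X 0 * X 1 ^ 3 + C (a ^ 2) * X 1 ^ 4,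
      C 4 * X 1 * (X 0 ^ 3 + C a * X 0 * X 1 ^ 2 + C b * X 1 ^ 3)]

theorem ev2_dupForms_zero (a b : ℤ) (x : ℤ × ℤ) : ev2 (dupForms a b 0) x = (1, 0) := by
  simp [ev2, dupForms]

theorem ev2_dupForms_one (a b : ℤ) (x : ℤ × ℤ) : ev2 (dupForms a b 1) x = x := by
  simp [ev2, dupForms]

theorem ev2_dupForms_two (a b : ℤ) (x : ℤ × ℤ) : ev2 (dupForms a b 2) x = dup a b x := by
  refine Prod.ext ?_ ?_
  · simp [ev2, dupForms, dup]
  · simp [ev2, dupForms, dup]

/-- the chain of the duplication map -/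
theorem dup_chain (a b : ℤ) : LattesChain a b (1, 0) 2 (dupForms a b) 1 1 where
  one_le := by norm_num
  tau := Or.inl rfl
  zero := ev2_dupForms_zero a b
  one x := by
    rw [ev2_dupForms_zero, ev2_dupForms_one]
    funext l
    rw [Pi.smul_apply, Pi.smul_apply, symc_two, symc_two]
    fin_cases l
    · simp [sd]; ring
    · simp [sd]; ring
    · simp [sd]; ring
  succ i h1 h2 x := by
    obtain rfl : i = 1 := by omega
    rw [ev2_dupForms_one, Nat.sub_self, ev2_dupForms_zero, ev2_dupForms_two]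
    funext l
    rw [Pi.smul_apply, Pi.smul_apply, symc_two, symc_two]
    fin_cases l
    · simp [sd, dup]; ring
    · simp [sd, dup]; ring
    · simp [sd, dup]; ring
  ne_zero i _ := by simp

/-- the chain of the identity -/
theorem id_chain (a b : ℤ) : LattesChain a b (1, 0) 1 (dupForms a b) 1 1 where
  one_le := le_rfl
  tau := Or.inl rfl
  zero := ev2_dupForms_zero a b
  one := (dup_chain a b).one
  succ i h1 h2 := by omega
  ne_zero i _ := by simp

theorem dupForms_one_hom (a b : ℤ) (i : Fin 2) : (dupForms a b 1 i).IsHomogeneous 1 := by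
  fin_cases i
  · exact isHomogeneous_X _ _
  · exact isHomogeneous_X _ _

end Pool.Agent.Lib.MP_05805c_nt
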