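import Mathlib

/-!
# Few primes `p` with `2p + 2 = u q + u' q'`, `q` and `q'` small, `u` and `u'` composed of primes dividing `r`
-/

set_option autoImplicit false

namespace Pool.Agent.Lib.MP_05805c_nt

/-- the exceptional numbers -/
def twoPartsR (r Y : ℕ) : Set ℕ :=
  {p | ∃ u q u' q' : ℕ, (∀ ℓ : ℕ, ℓ.Prime → ℓ ∣ u → ℓ ∣ r) ∧ (∀ ℓ : ℕ, ℓ.Prime → ℓ ∣ u' → ℓ ∣ r) ∧ 1 ≤ u ∧ 1 ≤ u' ∧
    1 ≤ q ∧ q ≤ Y ∧ 1 ≤ q' ∧ q' ≤ Y ∧ u * q + u' * q' = 2 * p + 2}

/-- few numbers are composed of the primes dividing `r` -/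
theorem smooth_card (r : ℕ) (hr : r ≠ 0) (Z : ℕ) (S : Finset ℕ)
    (hS : ∀ u ∈ S, 1 ≤ u ∧ u ≤ Z ∧ ∀ ℓ : ℕ, ℓ.Prime → ℓ ∣ u → ℓ ∣ r) :
    S.card ≤ (Nat.log 2 Z + 1) ^ r.primeFactors.card := by
  classical
  have h : S.card ≤ (Fintype.piFinset fun _ : r.primeFactors => Finset.range (Nat.log 2 Z + 1)).card := by
    refine Finset.card_le_card_of_injOn (fun u => fun ℓ : r.primeFactors => u.factorization ℓ) ?_ ?_
    · intro u hu
      obtain ⟨h1, h2, h3⟩ := hS u hu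
      rw [Finset.mem_coe, Fintype.mem_piFinset]
      intro ℓ
      rw [Finset.mem_range]
      apply Nat.lt_succ_of_le
      have hℓ := (Nat.mem_primeFactors.1 ℓ.2).1
      apply Nat.le_log_of_pow_le (by norm_num)
      calc 2 ^ (u.factorization ℓ) ≤ (ℓ : ℕ) ^ (u.factorization ℓ) := Nat.pow_le_pow_left hℓ.two_le _
        _ ≤ u := Nat.le_of_dvd (by omega) (Nat.ordProj_dvd u ℓ)
        _ ≤ Z := h2
    · intro u hu v hv huv
      obtain ⟨h1, _, h3⟩ := hS u hu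
      obtain ⟨h1', _, h3'⟩ := hS v hv
      apply Nat.eq_of_factorization_eq (by omega) (by omega)
      intro ℓ
      by_cases hℓ : ℓ ∈ r.primeFactors
      · exact congrFun huv ⟨ℓ, hℓ⟩
      · have key : ∀ w : ℕ, (∀ ℓ : ℕ, ℓ.Prime → ℓ ∣ w → ℓ ∣ r) → w.factorization ℓ = 0 := by
          intro w hw
          by_cases hp : ℓ.Prime
          · apply Nat.factorization_eq_zero_of_not_dvd
            intro hd
            exact hℓ (Nat.mem_primeFactors.2 ⟨hp, hw ℓ hp hd, hr⟩)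
          · exact Nat.factorization_eq_zero_of_not_prime w hp
        rw [key u h3, key v h3']
  refine h.trans ?_
  rw [Fintype.card_piFinset]
  simp

theorem twoPartsR_ncard (r : ℕ) (hr : r ≠ 0) (X Y : ℕ) :
    {p | p ≤ X ∧ p ∈ twoPartsR r Y}.ncard ≤
      ((Nat.log 2 (2 * X + 2) + 1) ^ r.primeFactors.card * (Y + 1)) ^ 2 := by
  classical
  set L := Nat.log 2 (2 * X + 2) with hL
  set S : Finset ℕ := (Finset.range (2 * X + 3)).filter fun u => 1 ≤ u ∧ ∀ ℓ : ℕ, ℓ.Prime → ℓ ∣ u → ℓ ∣ r with hSdef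
  have hScard : S.card ≤ (L + 1) ^ r.primeFactors.card := by
    apply smooth_card r hr (2 * X + 2)
    intro u hu
    rw [hSdef, Finset.mem_filter, Finset.mem_range] at hu
    exact ⟨hu.2.1, by omega, hu.2.2⟩
  set T : Finset ((ℕ × ℕ) × (ℕ × ℕ)) := (S ×ˢ Finset.range (Y + 1)) ×ˢ (S ×ˢ Finset.range (Y + 1)) with hT
  have hsub : {p | p ≤ X ∧ p ∈ twoPartsR r Y} ⊆
      ((T.image fun z => (z.1.1 * z.1.2 + z.2.1 * z.2.2 - 2) / 2 : Finset ℕ) : Set ℕ) := by
    rintro p ⟨hp, u, q, u', q', s1, s2, u1, u1', h1, h2, h3, h4, h5⟩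
    have hu : ∀ w s : ℕ, 1 ≤ s → w * s ≤ 2 * p + 2 → w < 2 * X + 3 := by
      intro w s hs h
      have : w * 1 ≤ w * s := Nat.mul_le_mul_left _ hs
      omega
    rw [Finset.mem_coe, Finset.mem_image]
    refine ⟨((u, q), (u', q')), ?_, ?_⟩
    · rw [hT]
      simp only [Finset.mem_product, Finset.mem_range]
      refine ⟨⟨?_, by omega⟩, ?_, by omega⟩
      · rw [hSdef, Finset.mem_filter, Finset.mem_range]
        exact ⟨hu u q h1 (by omega), u1, s1⟩
      · rw [hSdef, Finset.mem_filter, Finset.mem_range]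
        exact ⟨hu u' q' h3 (by omega), u1', s2⟩
    · change (u * q + u' * q' - 2) / 2 = p
      omega
  have h1 := Set.ncard_le_ncard hsub (Finset.finite_toSet _)
  rw [Set.ncard_coe_finset] at h1
  refine h1.trans (Finset.card_image_le.trans ?_)
  rw [hT, Finset.card_product, Finset.card_product, Finset.card_range, ← sq]
  exact Nat.pow_le_pow_left (Nat.mul_le_mul_right _ hScard) 2

end Pool.Agent.Lib.MP_05805c_nt
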