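import Pool.Agent.Lib.MP_05805c_nt.L35.Base
import Pool.Agent.Lib.MP_05805c_nt.L35.Chain
import Pool.Agent.Lib.MP_05805c_nt.L35.Smooth

/-!
# From base maps over `ℤ` to all large primes
-/

set_option autoImplicit false

namespace Pool.Agent.Lib.MP_05805c_nt

open Function WeierstrassCurve.Affine

/-- `G 0 = x(T)` is constant, `T = O` or `T` a point of order two with integral coordinates, and
`x(i P + T) = G i` at `x(P)`: the unordered pair of `G (i + 1)` and `G (i - 1)` is, up to a constant, the pair of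
`sum` and `difference` of `G i` and the identity. -/
structure LattesChain (a b : ℤ) (τ : ℤ × ℤ) (m : ℕ) (G : ℕ → Fin 2 → MvPolynomial (Fin 2) ℤ) (c c' : ℕ → ℤ) : Prop where
  one_le : 1 ≤ m
  tau : τ = (1, 0) ∨ (τ.2 = 1 ∧ τ.1 ^ 3 + a * τ.1 + b = 0)
  zero : ∀ x : ℤ × ℤ, ev2 (G 0) x = τ
  one : ∀ x : ℤ × ℤ, c' 0 • symc ![ev2 (G 1) x, ev2 (G 1) x] = c 0 • sd a b (symc ![ev2 (G 0) x, x])
  succ : ∀ i, 1 ≤ i → i < m → ∀ x : ℤ × ℤ,
    c' i • symc ![ev2 (G (i + 1)) x, ev2 (G (i - 1)) x] = c i • sd a b (symc ![ev2 (G i) x, x])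
  ne_zero : ∀ i < m, c i ≠ 0 ∧ c' i ≠ 0

section homog

variable {R : Type*} [CommRing R]

theorem sd_iter_smul (a b u : R) (j : ℕ) (v : Fin 3 → R) : (sd a b)^[j] (u • v) = u ^ 2 ^ j • (sd a b)^[j] v := by
  induction j with
  | zero => simp
  | succ j ih =>
    rw [Function.iterate_succ_apply', Function.iterate_succ_apply', ih, sd_smul', ← pow_mul, ← pow_succ]

theorem sd_map {S : Type*} [CommRing S] (f : R →+* S) (a b : R) (v : Fin 3 → R) :
    (sd (f a) (f b)) (fun i => f (v i)) = fun i => f (sd a b v i) := by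
  have e2 : f 2 = 2 := map_ofNat f 2
  have e4 : f 4 = 4 := map_ofNat f 4
  funext i
  fin_cases i <;> simp [sd, e2, e4]

theorem sd_iter_map {S : Type*} [CommRing S] (f : R →+* S) (a b : R) (j : ℕ) (v : Fin 3 → R) :
    (sd (f a) (f b))^[j] (fun i => f (v i)) = fun i => f ((sd a b)^[j] v i) := by
  induction j generalizing v with
  | zero => rfl
  | succ j ih =>
    rw [Function.iterate_succ_apply, Function.iterate_succ_apply, ← ih, sd_map]

end homog

section curve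

variable {K : Type*} [Field K] [DecidableEq K]

/-- sum and difference -/
def sdHom (A : Type*) [AddCommGroup A] : (Fin 2 → A) →+ (Fin 2 → A) where
  toFun P := ![P 0 + P 1, P 0 - P 1]
  map_zero' := by
    funext i
    fin_cases i <;> simp
  map_add' P Q := by
    funext i
    fin_cases i
    · simp; abel
    · simp; abel

theorem sdHom_sq {A : Type*} [AddCommGroup A] (P : Fin 2 → A) : sdHom A (sdHom A P) = (2 : ℕ) • P := by
  funext i
  fin_cases i
  · simp [sdHom, two_nsmul]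
  · simp [sdHom, two_nsmul]

theorem sdHom_iter_nsmul {A : Type*} [AddCommGroup A] (n j : ℕ) (x : Fin 2 → A) :
    (sdHom A)^[j] (n • x) = n • (sdHom A)^[j] x := by
  induction j with
  | zero => rfl
  | succ j ih => rw [Function.iterate_succ_apply', ih, map_nsmul, Function.iterate_succ_apply']

theorem sdHom_iter_sq {A : Type*} [AddCommGroup A] (j : ℕ) (x : Fin 2 → A) :
    (sdHom A)^[j] ((sdHom A)^[j] x) = 2 ^ j • x := by
  induction j generalizing x with
  | zero => simp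
  | succ j ih =>
    rw [Function.iterate_succ_apply, Function.iterate_succ_apply', sdHom_sq, sdHom_iter_nsmul, ih, pow_succ, mul_comm,
      mul_nsmul']

theorem sd_iter_phi1 (a b D : K) (h2 : (2 : K) ≠ 0) (j : ℕ) (P : Fin 2 → (shortW (a * D ^ 2) (b * D ^ 3)).Point) :
    ∃ u : K, u ≠ 0 ∧ (sd a b)^[j] (symc fun l => phi1 D (P l)) =
      u • symc fun l => phi1 D ((sdHom _)^[j] P l) := by
  induction j with
  | zero => exact ⟨1, one_ne_zero, by simp⟩
  | succ j ih =>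
    obtain ⟨u, hu, h⟩ := ih
    obtain ⟨u', hu', h'⟩ := sd_phi1 a b D h2 ((sdHom _)^[j] P)
    refine ⟨u ^ 2 * u', mul_ne_zero (pow_ne_zero _ hu) hu', ?_⟩
    rw [Function.iterate_succ_apply', Function.iterate_succ_apply', h, sd_smul', h', smul_smul]
    rfl

end curve

section lift

variable {p : ℕ} [Fact p.Prime] {N : ℕ}

theorem evalMod_cast (F : Fin (N + 1) → MvPolynomial (Fin (N + 1)) ℤ) (v : Fin (N + 1) → ℤ) (i : Fin (N + 1)) :
    evalMod p F (fun l => (v l : ZMod p)) i = ((MvPolynomial.eval v (F i) : ℤ) : ZMod p) := by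
  unfold evalMod
  have h := MvPolynomial.eval₂_comp_left (Int.castRingHom (ZMod p)) (RingHom.id ℤ) v (F i)
  rw [MvPolynomial.eval₂_id] at h
  rw [MvPolynomial.aeval_def]
  exact h.symm

/-- reduction of a pair -/
def red2 (p : ℕ) (x : ℤ × ℤ) : ZMod p × ZMod p := (x.1, x.2)

theorem red2_surj (z : ZMod p × ZMod p) : ∃ y : ℤ × ℤ, red2 p y = z := by
  obtain ⟨y1, h1⟩ := ZMod.intCast_surjective z.1
  obtain ⟨y2, h3⟩ := ZMod.intCast_surjective z.2
  exact ⟨(y1, y2), Prod.ext h1 h3⟩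

/-- `g` is the map `μ` on the x-line modulo `p` -/
def GoodMap (D : ZMod p) (W : WeierstrassCurve.Affine (ZMod p)) (g : ℤ × ℤ → ℤ × ℤ) (μ : W.Point → W.Point) : Prop :=
  ∀ (x : ℤ × ℤ) (P : W.Point), red2 p x = phi1 D P → ∃ u : ZMod p, u ≠ 0 ∧ red2 p (g x) = u • phi1 D (μ P)

/-- the `k` values of a good map -/
theorem goodMap_symc {k : ℕ} {D : ZMod p} {W : WeierstrassCurve.Affine (ZMod p)} {g : ℤ × ℤ → ℤ × ℤ}
    {μ : W.Point → W.Point} (hg : GoodMap D W g μ) (P : Fin k → W.Point) (x : Fin k → ℤ × ℤ)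
    (hx : ∀ l, red2 p (x l) = phi1 D (P l)) : ∃ u : ZMod p, u ≠ 0 ∧
      (fun i => ((symc (fun l => g (x l)) i : ℤ) : ZMod p)) = u • symc fun l => phi1 D (μ (P l)) := by
  choose u hu h using fun l => hg (x l) (P l) (hx l)
  refine ⟨∏ l, u l, Finset.prod_ne_zero_iff.2 fun l _ => hu l, ?_⟩
  rw [← symc_smul]
  funext i
  have h3 := symc_map (Int.castRingHom (ZMod p)) (fun l => g (x l)) i
  simp only [eq_intCast] at h3
  rw [← h3]
  congr 1
  funext l
  exact h l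

/-- lifts of vectors -/
theorem exists_lift {m k : ℕ} (hkN : k + 1 ≤ N + 1) (hkm : k ≤ m) (D : ZMod p) (W : WeierstrassCurve.Affine (ZMod p))
    (P : Fin k → W.Point) (v : Fin (N + 1) → ZMod p)
    (hv : ∀ i : Fin (k + 1), v (Fin.castLE hkN i) = symc (fun l => phi1 D (P l)) i)
    (hv0 : ∀ i : Fin (N + 1), m < (i : ℕ) → v i = 0) :
    ∃ (x : Fin k → ℤ × ℤ) (w : Fin (N + 1) → ℤ), (∀ l, red2 p (x l) = phi1 D (P l)) ∧
      (∀ i : Fin (k + 1), w (Fin.castLE hkN i) = symc x i) ∧ (∀ i : Fin (N + 1), m < (i : ℕ) → w i = 0) ∧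
      (fun i => (w i : ZMod p)) = v := by
  classical
  choose g hg using red2_surj (p := p)
  set x : Fin k → ℤ × ℤ := fun l => g (phi1 D (P l)) with hx
  have hx' : ∀ l, red2 p (x l) = phi1 D (P l) := fun l => hg _
  choose g1 hg1 using ZMod.intCast_surjective (n := p)
  set w : Fin (N + 1) → ℤ := fun i => if h : (i : ℕ) < k + 1 then symc x ⟨i, h⟩ else if m < (i : ℕ) then 0 else g1 (v i)
    with hw
  have hw1 : ∀ i : Fin (k + 1), w (Fin.castLE hkN i) = symc x i := by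
    intro i
    have h : ((Fin.castLE hkN i : Fin (N + 1)) : ℕ) < k + 1 := i.2
    simp only [hw, dif_pos h]
    rfl
  have hw0 : ∀ i : Fin (N + 1), m < (i : ℕ) → w i = 0 := by
    intro i hi
    simp only [hw]
    rw [dif_neg (by omega), if_pos hi]
  have hsc : ∀ i : Fin (k + 1), ((symc x i : ℤ) : ZMod p) = symc (fun l => phi1 D (P l)) i := by
    intro i
    have h := symc_map (Int.castRingHom (ZMod p)) x i
    simp only [eq_intCast] at h
    rw [← h]
    congr 1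
    funext l
    exact hx' l
  refine ⟨x, w, hx', hw1, hw0, ?_⟩
  funext i
  rcases Nat.lt_or_ge (i : ℕ) (k + 1) with hi | hi
  · have h := hw1 ⟨i, hi⟩
    have h' := hv ⟨i, hi⟩
    have e : Fin.castLE hkN ⟨(i : ℕ), hi⟩ = i := rfl
    rw [e] at h h'
    rw [h, h', hsc]
  · by_cases him : m < (i : ℕ)
    · rw [hw0 i him, hv0 i him]
      simp
    · simp only [hw]
      rw [dif_neg (by omega), if_neg him]
      exact hg1 _

/-- base maps over `ℤ` give base maps modulo `p`: symmetric powers -/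
theorem localBase_gen {m k : ℕ} (hkN : k + 1 ≤ N + 1) (hkm : k ≤ m) (F : Fin (N + 1) → MvPolynomial (Fin (N + 1)) ℤ)
    (c : ℤ) (g : ℤ × ℤ → ℤ × ℤ)
    (hbase : ∀ (x : Fin k → ℤ × ℤ) (v : Fin (N + 1) → ℤ), (∀ i : Fin (k + 1), v (Fin.castLE hkN i) = symc x i) →
      (∀ i : Fin (N + 1), m < (i : ℕ) → v i = 0) → ∀ i : Fin (k + 1),
      MvPolynomial.eval v (F (Fin.castLE hkN i)) = c * symc (fun l => g (x l)) i)
    (hc : (c : ZMod p) ≠ 0) (D : ZMod p) (W : WeierstrassCurve.Affine (ZMod p)) (μ : W.Point → W.Point)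
    (hg : GoodMap D W g μ) : LocalBase hkN m F D W (fun P l => μ (P l)) := by
  intro P v hv hv0
  obtain ⟨x, w, hx, hw1, hw0, hwv⟩ := exists_lift hkN hkm D W P v hv hv0
  obtain ⟨u, hu, h⟩ := goodMap_symc hg P x hx
  refine ⟨c * u, mul_ne_zero hc hu, fun i => ?_⟩
  rw [← hwv, evalMod_cast, hbase x w hw1 hw0 i]
  push_cast
  rw [mul_assoc]
  congr 1
  exact congrFun h i

/-- base maps over `ℤ` give base maps modulo `p`: sum and difference -/
theorem localBase_sdgen {m : ℕ} (hkN : 2 + 1 ≤ N + 1) (hkm : 2 ≤ m) (F : Fin (N + 1) → MvPolynomial (Fin (N + 1)) ℤ)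
    (a b c : ℤ) (j : ℕ) (g : ℤ × ℤ → ℤ × ℤ)
    (hbase : ∀ (x : Fin 2 → ℤ × ℤ) (v : Fin (N + 1) → ℤ), (∀ i : Fin (2 + 1), v (Fin.castLE hkN i) = symc x i) →
      (∀ i : Fin (N + 1), m < (i : ℕ) → v i = 0) → ∀ i : Fin (2 + 1),
      MvPolynomial.eval v (F (Fin.castLE hkN i)) = c * (sd a b)^[j] (symc fun l => g (x l)) i)
    (h2 : (2 : ZMod p) ≠ 0) (hc : (c : ZMod p) ≠ 0) (D : ZMod p)
    (μ : (shortW ((a : ZMod p) * D ^ 2) ((b : ZMod p) * D ^ 3)).Point →
      (shortW ((a : ZMod p) * D ^ 2) ((b : ZMod p) * D ^ 3)).Point)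
    (hg : GoodMap D (shortW ((a : ZMod p) * D ^ 2) ((b : ZMod p) * D ^ 3)) g μ) :
    LocalBase hkN m F D (shortW ((a : ZMod p) * D ^ 2) ((b : ZMod p) * D ^ 3))
      (fun P => (sdHom _)^[j] (fun l => μ (P l))) := by
  intro P v hv hv0
  obtain ⟨x, w, hx, hw1, hw0, hwv⟩ := exists_lift hkN hkm D _ P v hv hv0
  obtain ⟨u, hu, h⟩ := goodMap_symc hg P x hx
  obtain ⟨u', hu', h'⟩ := sd_iter_phi1 (a : ZMod p) (b : ZMod p) D h2 j (fun l => μ (P l))
  refine ⟨c * (u ^ 2 ^ j * u'), mul_ne_zero hc (mul_ne_zero (pow_ne_zero _ hu) hu'), fun i => ?_⟩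
  rw [← hwv, evalMod_cast, hbase x w hw1 hw0 i]
  push_cast
  rw [mul_assoc]
  congr 1
  have h4 := congrFun (sd_iter_map (Int.castRingHom (ZMod p)) a b j (symc fun l => g (x l))) i
  simp only [eq_intCast] at h4
  rw [← h4, h, sd_iter_smul, h', smul_smul]
  rfl

/-- chains give good maps -/
theorem chain_good {a b : ℤ} {τ : ℤ × ℤ} {m : ℕ} {G : ℕ → Fin 2 → MvPolynomial (Fin 2) ℤ} {c c' : ℕ → ℤ}
    (h : LattesChain a b τ m G c c') (h2 : (2 : ZMod p) ≠ 0) (hc : ∀ i < m, (c i : ZMod p) ≠ 0 ∧ (c' i : ZMod p) ≠ 0)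
    (hΔ : 4 * (a : ZMod p) ^ 3 + 27 * (b : ZMod p) ^ 2 ≠ 0)
    (D : ZMod p) (hD : D ≠ 0) : ∃ T : (shortW ((a : ZMod p) * D ^ 2) ((b : ZMod p) * D ^ 3)).Point, T + T = 0 ∧
      (τ = (1, 0) → T = 0) ∧ GoodMap D _ (ev2 (G m)) (fun P => m • P + T) := by
  obtain ⟨T, hT, hT0, hu⟩ : ∃ T : (shortW ((a : ZMod p) * D ^ 2) ((b : ZMod p) * D ^ 3)).Point, T + T = 0 ∧
      (τ = (1, 0) → T = 0) ∧ ∃ u : ZMod p, u ≠ 0 ∧ red2 p τ = u • phi1 D T := by
    rcases h.tau with h1 | ⟨h1, h3⟩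
    · refine ⟨0, add_zero 0, fun _ => rfl, 1, one_ne_zero, ?_⟩
      rw [h1]
      simp [red2, phi1]
    · obtain ⟨T, hT, u, hu, h4⟩ := exists_torsion (a : ZMod p) (b : ZMod p) (τ.1 : ZMod p) D hD h2 hΔ (by
        exact_mod_cast congrArg (Int.cast : ℤ → ZMod p) h3)
      refine ⟨T, hT, fun h5 => ?_, u, hu, ?_⟩
      · exfalso
        rw [h5] at h1
        norm_num at h1
      · rw [← h4]
        refine Prod.ext rfl ?_
        simp [red2, h1]
  refine ⟨T, hT, hT0, fun x P hx => ?_⟩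
  have hev : ∀ i, ev2 (G i) (phi1 D P) = red2 p (ev2 (G i) x) := by
    intro i
    rw [← hx]
    exact ev2_map (Int.castRingHom (ZMod p)) (G i) x
  have hcast : ∀ (y z : ℤ × ℤ) (i : Fin 3), symc ![red2 p y, red2 p z] i = ((symc ![y, z] i : ℤ) : ZMod p) := by
    intro y z i
    have h3 := symc_map (Int.castRingHom (ZMod p)) ![y, z] i
    simp only [eq_intCast] at h3
    rw [← h3]
    congr 1
    funext l
    fin_cases l <;> rfl
  have hsdc : ∀ (y z : ℤ × ℤ) (i : Fin 3), sd (a : ZMod p) (b : ZMod p) (symc ![red2 p y, red2 p z]) i =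
      ((sd a b (symc ![y, z]) i : ℤ) : ZMod p) := by
    intro y z i
    have h3 := congrFun (sd_map (Int.castRingHom (ZMod p)) a b (symc ![y, z])) i
    simp only [eq_intCast] at h3
    rw [← h3]
    congr 1
    funext l
    exact hcast y z l
  have hkey : ∀ (e e' : ℤ) (y z y' z' : ℤ × ℤ), e' • symc ![y', z'] = e • sd a b (symc ![y, z]) →
      (e' : ZMod p) • symc ![red2 p y', red2 p z'] =
        (e : ZMod p) • sd (a : ZMod p) (b : ZMod p) (symc ![red2 p y, red2 p z]) := by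
    intro e e' y z y' z' h3
    funext i
    rw [Pi.smul_apply, Pi.smul_apply, smul_eq_mul, smul_eq_mul, hcast, hsdc]
    have h4 := congrFun h3 i
    rw [Pi.smul_apply, Pi.smul_apply, smul_eq_mul, smul_eq_mul] at h4
    exact_mod_cast congrArg (Int.cast : ℤ → ZMod p) h4
  obtain ⟨u, hu, h5⟩ := chain_point (a : ZMod p) (b : ZMod p) D hD h2 T P hT m (fun i => ev2 (G i) (phi1 D P))
    (fun i => (c i : ZMod p)) (fun i => (c' i : ZMod p)) hc (by
      obtain ⟨u, hu, h6⟩ := hu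
      refine ⟨u, hu, ?_⟩
      change ev2 (G 0) (phi1 D P) = _
      rw [hev, h.zero]
      exact h6) (by
      change (c' 0 : ZMod p) • symc ![ev2 (G 1) (phi1 D P), ev2 (G 1) (phi1 D P)] =
        (c 0 : ZMod p) • sd (a : ZMod p) (b : ZMod p) (symc ![ev2 (G 0) (phi1 D P), phi1 D P])
      rw [hev, hev, ← hx]
      exact hkey _ _ _ _ _ _ (h.one x)) (by
      intro i h1i him
      change (c' i : ZMod p) • symc ![ev2 (G (i + 1)) (phi1 D P), ev2 (G (i - 1)) (phi1 D P)] =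
        (c i : ZMod p) • sd (a : ZMod p) (b : ZMod p) (symc ![ev2 (G i) (phi1 D P), phi1 D P])
      rw [hev, hev, hev, ← hx]
      exact hkey _ _ _ _ _ _ (h.succ i h1i him x)) m le_rfl
  refine ⟨u, hu, ?_⟩
  rw [← hev]
  exact h5

/-- iterates of good maps, up to factors: `g` homogeneous -/
theorem goodMap_iter {D : ZMod p} {W : WeierstrassCurve.Affine (ZMod p)} {g : ℤ × ℤ → ℤ × ℤ}
    {μ : W.Point → W.Point} (hg : GoodMap D W g μ) {e : ℕ} (hhom : ∀ (t : ℤ) (x : ℤ × ℤ), g (t • x) = t ^ e • g x)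
    (hmod : ∀ x y : ℤ × ℤ, red2 p x = red2 p y → red2 p (g x) = red2 p (g y)) (j : ℕ) :
    GoodMap D W g^[j] μ^[j] := by
  induction j with
  | zero => exact fun x P h => ⟨1, one_ne_zero, by simpa using h⟩
  | succ j ih =>
    intro x P hx
    obtain ⟨u, hu, h⟩ := ih x P hx
    obtain ⟨y, hy⟩ := red2_surj (phi1 D (μ^[j] P))
    obtain ⟨u', hu', h'⟩ := hg y _ hy
    obtain ⟨t, ht⟩ := ZMod.intCast_surjective u
    have h3 : red2 p (g^[j] x) = red2 p (t • y) := by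
      rw [h, ← hy, ← ht]
      refine Prod.ext ?_ ?_ <;> simp [red2]
    have h4 := hmod _ _ h3
    rw [hhom] at h4
    refine ⟨u ^ e * u', mul_ne_zero (pow_ne_zero _ hu) hu', ?_⟩
    rw [Function.iterate_succ_apply', Function.iterate_succ_apply', h4, mul_smul, ← h', ← ht]
    refine Prod.ext ?_ ?_ <;> simp [red2]

end lift

end Pool.Agent.Lib.MP_05805c_nt
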