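import Mathlib

/-!
# Few primes `p` with `2p + 2 = 2^w q + 2^w' q'`, `q` and `q'` small
-/

set_option autoImplicit false

namespace Pool.Agent.Lib.MP_05805c_nt

/-- the exceptional numbers -/
def twoParts (Y : ℕ) : Set ℕ :=
  {p | ∃ w q w' q' : ℕ, 1 ≤ q ∧ q ≤ Y ∧ 1 ≤ q' ∧ q' ≤ Y ∧ 2 ^ w * q + 2 ^ w' * q' = 2 * p + 2}

theorem twoParts_ncard (X Y : ℕ) :
    {p | p ≤ X ∧ p ∈ twoParts Y}.ncard ≤ ((Nat.log 2 (2 * X + 2) + 1) * (Y + 1)) ^ 2 := by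
  classical
  set L := Nat.log 2 (2 * X + 2) with hL
  set T : Finset ((ℕ × ℕ) × (ℕ × ℕ)) := (Finset.range (L + 1) ×ˢ Finset.range (Y + 1)) ×ˢ
    (Finset.range (L + 1) ×ˢ Finset.range (Y + 1)) with hT
  have hsub : {p | p ≤ X ∧ p ∈ twoParts Y} ⊆
      ((T.image fun z => (2 ^ z.1.1 * z.1.2 + 2 ^ z.2.1 * z.2.2 - 2) / 2 : Finset ℕ) : Set ℕ) := by
    rintro p ⟨hp, w, q, w', q', h1, h2, h3, h4, h5⟩
    have hw : ∀ u r : ℕ, 1 ≤ r → 2 ^ u * r ≤ 2 * p + 2 → u ≤ L := by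
      intro u r hr hu
      have h6 : 2 ^ u ≤ 2 * X + 2 := by
        calc 2 ^ u = 2 ^ u * 1 := (mul_one _).symm
          _ ≤ 2 ^ u * r := Nat.mul_le_mul_left _ hr
          _ ≤ 2 * p + 2 := hu
          _ ≤ 2 * X + 2 := by omega
      exact Nat.le_log_of_pow_le (by norm_num) h6
    rw [Finset.mem_coe, Finset.mem_image]
    refine ⟨((w, q), (w', q')), ?_, ?_⟩
    · rw [hT]
      simp only [Finset.mem_product, Finset.mem_range]
      refine ⟨⟨Nat.lt_succ_of_le (hw w q h1 (by omega)), by omega⟩, Nat.lt_succ_of_le (hw w' q' h3 (by omega)), by omega⟩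
    · change (2 ^ w * q + 2 ^ w' * q' - 2) / 2 = p
      omega
  have h1 := Set.ncard_le_ncard hsub (Finset.finite_toSet _)
  rw [Set.ncard_coe_finset] at h1
  refine h1.trans (Finset.card_image_le.trans ?_)
  rw [hT, Finset.card_product, Finset.card_product, Finset.card_range, Finset.card_range, sq]

theorem log_bound (X : ℕ) (hX : 2 ≤ X) : ((Nat.log 2 (2 * X + 2) + 1 : ℕ) : ℝ) ≤ 6 * Real.log X := by
  have hX' : (2 : ℝ) ≤ X := by exact_mod_cast hX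
  have hl2 : (0.6931471803 : ℝ) < Real.log 2 := Real.log_two_gt_d9
  have hlX : Real.log 2 ≤ Real.log X := Real.log_le_log (by norm_num) hX'
  have h1 : (2 : ℝ) ^ Nat.log 2 (2 * X + 2) ≤ (X : ℝ) ^ 3 := by
    have h2 : 2 ^ Nat.log 2 (2 * X + 2) ≤ 2 * X + 2 := Nat.pow_log_le_self 2 (by omega)
    have h3 : 2 * X + 2 ≤ X ^ 3 := by
      obtain ⟨c, rfl⟩ := Nat.exists_eq_add_of_le hX
      ring_nf
      nlinarith [sq_nonneg c, Nat.zero_le c, Nat.zero_le (c ^ 2), Nat.zero_le (c ^ 3)]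
    exact_mod_cast h2.trans h3
  have h4 := Real.log_le_log (by positivity) h1
  rw [Real.log_pow, Real.log_pow] at h4
  push_cast at h4 ⊢
  have h5 : (Nat.log 2 (2 * X + 2) : ℝ) * 0.6931471803 ≤ (Nat.log 2 (2 * X + 2) : ℝ) * Real.log 2 :=
    mul_le_mul_of_nonneg_left hl2.le (Nat.cast_nonneg _)
  linarith

end Pool.Agent.Lib.MP_05805c_nt
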