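import Pool.Agent.Lib.MP_05805c_nt.L35.GlobR
import Pool.Agent.Lib.MP_05805c_nt.L35.Primes

/-!
# The count of the primes with few components
-/

set_option autoImplicit false

namespace Pool.Agent.Lib.MP_05805c_nt

open Function Filter Topology

theorem densityZero_of_count (S : Set ℕ) (C θ : ℝ) (hθ : θ < 1) (r : ℕ)
    (h : ∀ X : ℕ, 3 ≤ X → ({p | p ≤ X ∧ p.Prime ∧ p ∈ S}.ncard : ℝ) ≤ C * (X : ℝ) ^ θ * Real.log X ^ r) :
    HasDensityZero S := by
  unfold HasDensityZero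
  have hlim : Tendsto (fun n : ℕ => (10 * |C|) * (Real.log (n : ℝ) ^ ((r + 1 : ℕ) : ℝ) / (n : ℝ) ^ (1 - θ))) atTop (𝓝 0) := by
    have h1 : Tendsto (fun x : ℝ => Real.log x ^ ((r + 1 : ℕ) : ℝ) / x ^ (1 - θ)) atTop (𝓝 0) :=
      (isLittleO_log_rpow_rpow_atTop _ (by linarith)).tendsto_div_nhds_zero
    have h2 := (h1.comp (tendsto_natCast_atTop_atTop (R := ℝ))).const_mul (10 * |C|)
    simpa using h2
  refine squeeze_zero' ?_ ?_ hlim
  · filter_upwards with n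
    positivity
  · filter_upwards [eventually_ge_atTop 3] with n hn
    have hn0 : (0 : ℝ) < n := by exact_mod_cast (by omega : 0 < n)
    have hlog : 0 < Real.log n := Real.log_pos (by exact_mod_cast (by omega : 1 < n))
    have hpos : 0 < (1 / 10 : ℝ) * n / Real.log n := by positivity
    have h1 := h n hn
    have h2 : C * (n : ℝ) ^ θ * Real.log n ^ r ≤ |C| * (n : ℝ) ^ θ * Real.log n ^ r := by
      gcongr
      exact le_abs_self C
    calc ({p : ℕ | p ≤ n ∧ p.Prime ∧ p ∈ S}.ncard : ℝ) / (Nat.primeCounting n : ℝ)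
        ≤ (|C| * (n : ℝ) ^ θ * Real.log n ^ r) / ((1 / 10 : ℝ) * n / Real.log n) :=
          div_le_div₀ (by positivity) (h1.trans h2) hpos (primeCounting_ge n (by omega))
      _ = _ := by
        rw [Real.rpow_natCast, Real.rpow_sub hn0, Real.rpow_one, pow_succ]
        have hθ0 : (n : ℝ) ^ θ ≠ 0 := (Real.rpow_pos_of_pos hn0 θ).ne'
        field_simp

theorem finite_point {p : ℕ} [Fact p.Prime] (W : WeierstrassCurve.Affine (ZMod p)) : Finite W.Point := by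
  have : Finite {xy : ZMod p × ZMod p // W.Nonsingular xy.1 xy.2} := inferInstance
  have : Finite (Option {xy : ZMod p × ZMod p // W.Nonsingular xy.1 xy.2}) := inferInstance
  exact Finite.of_equiv (Option {xy : ZMod p × ZMod p // W.Nonsingular xy.1 xy.2})
    (WeierstrassCurve.Affine.nonsingularPointEquiv W).symm

/-- a curve and its twist at one prime -/
theorem pointwise_lattes {N n k d : ℕ} (hk : 2 ≤ k) (hkn : k ≤ n) (hkN : k + 1 ≤ N + 1)
    (F : Fin (N + 1) → MvPolynomial (Fin (N + 1)) ℤ) (hF : ∀ i, (F i).IsHomogeneous d)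
    (hsub : ∀ i : Fin (N + 1), n < (i : ℕ) → F i ∈ tailIdeal N n)
    (a b : ℤ) (p : ℕ) [Fact p.Prime] (hp2 : 2 < p) (hab : 4 * (a : ZMod p) ^ 3 + 27 * (b : ZMod p) ^ 2 ≠ 0)
    (r : ℕ) (hr : 1 ≤ r)
    (hL : ∀ D : ZMod p, D ≠ 0 → ∃ (M : (Fin k → (shortW ((a : ZMod p) * D ^ 2) ((b : ZMod p) * D ^ 3)).Point) →
      (Fin k → (shortW ((a : ZMod p) * D ^ 2) ((b : ZMod p) * D ^ 3)).Point))
      (z : Fin k → (shortW ((a : ZMod p) * D ^ 2) ((b : ZMod p) * D ^ 3)).Point),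
      (∀ x : Fin k → (shortW ((a : ZMod p) * D ^ 2) ((b : ZMod p) * D ^ 3)).Point, M (M (x + z)) = r • x + z) ∧
      LocalBase hkN n F D (shortW ((a : ZMod p) * D ^ 2) ((b : ZMod p) * D ^ 3)) M) :
    ∃ u q u' q' : ℕ, (∀ ℓ : ℕ, ℓ.Prime → ℓ ∣ u → ℓ ∣ r) ∧ (∀ ℓ : ℕ, ℓ.Prime → ℓ ∣ u' → ℓ ∣ r) ∧ 1 ≤ u ∧ 1 ≤ u' ∧
      1 ≤ q ∧ 1 ≤ q' ∧ u * q + u' * q' = 2 * p + 2 ∧
      q ^ (k - 1) ≤ 2 * (2 * k) ^ k * comps (redMap p F) ∧ q' ^ (k - 1) ≤ 2 * (2 * k) ^ k * comps (redMap p F) := by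
  have hchar : ringChar (ZMod p) ≠ 2 := by
    rw [ZMod.ringChar_zmod_n]
    omega
  have hfin : ∀ W : WeierstrassCurve.Affine (ZMod p), Finite W.Point := finite_point
  obtain ⟨D, hD⟩ := FiniteField.exists_nonsquare hchar
  have hD0 : D ≠ 0 := fun h => hD (h ▸ IsSquare.zero)
  have hloc : ∀ D : ZMod p, D ≠ 0 → ∃ u q : ℕ,
      Nat.card (shortW ((a : ZMod p) * D ^ 2) ((b : ZMod p) * D ^ 3)).Point = u * q ∧
      (∀ ℓ : ℕ, ℓ.Prime → ℓ ∣ u → ℓ ∣ r) ∧
      q ^ (k - 1) ≤ 2 * (2 * k) ^ k * comps (redMap p F) := by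
    intro D hD0
    obtain ⟨M, z, hM, hLM⟩ := hL D hD0
    exact local_bound (by omega) hkN hkn F hF hsub D hD0 _ M r hr z hM hLM
  have hpos : ∀ (D : ZMod p) (u q : ℕ),
      Nat.card (shortW ((a : ZMod p) * D ^ 2) ((b : ZMod p) * D ^ 3)).Point = u * q → 1 ≤ u ∧ 1 ≤ q := by
    intro D u q h
    have : 0 < Nat.card (shortW ((a : ZMod p) * D ^ 2) ((b : ZMod p) * D ^ 3)).Point := Nat.card_pos
    rw [h] at this
    exact ⟨Nat.pos_of_ne_zero (by rintro rfl; simp at this), Nat.pos_of_ne_zero (by rintro rfl; simp at this)⟩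
  obtain ⟨u, q, h1, s1, h2⟩ := hloc 1 one_ne_zero
  obtain ⟨u', q', h3, s2, h4⟩ := hloc D hD0
  obtain ⟨hu, hq⟩ := hpos 1 u q h1
  obtain ⟨hu', hq'⟩ := hpos D u' q' h3
  have h5 := card_add_twist hchar (a : ZMod p) (b : ZMod p) D hD hab
  rw [ZMod.card] at h5
  have e1 : shortW ((a : ZMod p) * 1 ^ 2) ((b : ZMod p) * 1 ^ 3) = shortW (a : ZMod p) (b : ZMod p) := by
    rw [one_pow, one_pow, mul_one, mul_one]
  rw [e1] at h1
  rw [h1, h3] at h5
  exact ⟨u, q, u', q', s1, s2, hu, hu', hq, hq', h5, h2, h4⟩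

section maps

variable {A : Type*} [AddCommGroup A]

theorem iter_affine (m : ℕ) (T z : A) (h : m • (m • z + T) + T = z) (i : ℕ) (y : A) :
    (fun x : A => m • x + T)^[i] ((fun x : A => m • x + T)^[i] (y + z)) = (m * m) ^ i • y + z := by
  induction i with
  | zero => simp
  | succ i ih =>
    have h1 : ∀ w : A, (fun x : A => m • x + T)^[i + 1] ((fun x : A => m • x + T)^[i + 1] w) =
        m • (m • ((fun x : A => m • x + T)^[i] ((fun x : A => m • x + T)^[i] w)) + T) + T := by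
      intro w
      rw [Function.iterate_succ_apply' (n := i) (x := (fun x : A => m • x + T)^[i + 1] w),
        Function.iterate_succ_apply' (n := i) (x := w),
        ← Function.iterate_succ_apply (n := i) (x := (fun x : A => m • x + T)^[i] w),
        Function.iterate_succ_apply' (n := i) (x := (fun x : A => m • x + T)^[i] w)]
    rw [h1, ih]
    have h2 : m • (m • ((m * m) ^ i • y + z) + T) + T = (m * m) ^ (i + 1) • y + (m • (m • z + T) + T) := by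
      rw [pow_succ', mul_nsmul', mul_nsmul']
      simp only [nsmul_add]
      abel
    rw [h2, h]

theorem exists_shift (m : ℕ) (T : A) (hT : T + T = 0) : ∃ z : A, m • (m • z + T) + T = z := by
  have h2 : (2 : ℕ) • T = 0 := by rw [two_nsmul]; exact hT
  rcases Nat.even_or_odd' m with ⟨s, rfl | rfl⟩
  · refine ⟨T, ?_⟩
    have h3 : (2 * s) • T = 0 := by rw [mul_comm, mul_nsmul', h2, nsmul_zero]
    rw [h3, zero_add, h3, zero_add]
  · refine ⟨0, ?_⟩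
    have h3 : (2 * s) • T = 0 := by rw [mul_comm, mul_nsmul', h2, nsmul_zero]
    rw [nsmul_zero, zero_add, add_nsmul, one_nsmul, h3, zero_add, hT]

theorem sd_block (m i j : ℕ) (x : Fin 2 → A) :
    (fun P : Fin 2 → A => (sdHom A)^[j] (fun l => (fun P => m • P + 0)^[i] (P l)))
      ((fun P : Fin 2 → A => (sdHom A)^[j] (fun l => (fun P => m • P + 0)^[i] (P l))) (x + 0)) =
      (2 ^ j * (m * m) ^ i) • x + 0 := by
  have e1 : ∀ (i : ℕ) (y : A), (fun P => m • P + 0)^[i] y = m ^ i • y := by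
    intro i
    induction i with
    | zero => intro y; simp
    | succ i ih => intro y; rw [Function.iterate_succ_apply', ih, add_zero, pow_succ', mul_nsmul']
  have e3 : ∀ y : Fin 2 → A,
      (fun P : Fin 2 → A => (sdHom A)^[j] (fun l => (fun P => m • P + 0)^[i] (P l))) y = (sdHom A)^[j] (m ^ i • y) := by
    intro y
    have e2 : (fun l => (fun P => m • P + 0)^[i] (y l)) = m ^ i • y := by
      funext l
      rw [e1, Pi.smul_apply]
    exact congrArg _ e2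
  rw [e3, e3, add_zero, add_zero, sdHom_iter_nsmul, sdHom_iter_nsmul, sdHom_iter_nsmul, sdHom_iter_sq]
  simp only [← mul_nsmul']
  congr 1
  rw [mul_pow]
  ring

end maps

theorem ev2_mod {p : ℕ} (G : Fin 2 → MvPolynomial (Fin 2) ℤ) (x y : ℤ × ℤ) (h : red2 p x = red2 p y) :
    red2 p (ev2 G x) = red2 p (ev2 G y) := by
  have h1 := ev2_map (Int.castRingHom (ZMod p)) G x
  have h2 := ev2_map (Int.castRingHom (ZMod p)) G y
  have h3 : red2 p (ev2 G x) = ev2 G (red2 p x) := h1.symm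
  have h4 : red2 p (ev2 G y) = ev2 G (red2 p y) := h2.symm
  rw [h3, h4, h]

theorem ev2_hom {e : ℕ} (G : Fin 2 → MvPolynomial (Fin 2) ℤ) (hG : ∀ i, (G i).IsHomogeneous e) (t : ℤ) (x : ℤ × ℤ) :
    ev2 G (t • x) = t ^ e • ev2 G x := by
  have h : ∀ i, MvPolynomial.eval₂ (Int.castRingHom ℤ) ![(t • x).1, (t • x).2] (G i) =
      t ^ e * MvPolynomial.eval₂ (Int.castRingHom ℤ) ![x.1, x.2] (G i) := by
    intro i
    rw [MvPolynomial.eval₂_eq', MvPolynomial.eval₂_eq', Finset.mul_sum]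
    refine Finset.sum_congr rfl fun f hf => ?_
    have h1 : ∑ j, f j = e := by
      have h2 := hG i (MvPolynomial.mem_support_iff.1 hf)
      simpa [Finsupp.weight_apply, Finsupp.sum_fintype] using h2
    have h3 : ∏ j, (![(t • x).1, (t • x).2] : Fin 2 → ℤ) j ^ f j = t ^ e * ∏ j, (![x.1, x.2] : Fin 2 → ℤ) j ^ f j := by
      rw [← h1, Fin.sum_univ_two, Fin.prod_univ_two, Fin.prod_univ_two]
      simp
      ring
    rw [h3]
    ring
  unfold ev2
  rw [h, h]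
  rfl

/-- hypotheses of `pointwise_lattes` -/
theorem base_all {N n k : ℕ} (hkN : k + 1 ≤ N + 1) (hkn : k ≤ n) (F : Fin (N + 1) → MvPolynomial (Fin (N + 1)) ℤ)
    (a b c₀ : ℤ) {τ : ℤ × ℤ} {m : ℕ} {G : ℕ → Fin 2 → MvPolynomial (Fin 2) ℤ} {c c' : ℕ → ℤ}
    (h : LattesChain a b τ m G c c') (e : ℕ) (hG : ∀ i, (G m i).IsHomogeneous e) (i j : ℕ)
    (hbase : (∀ (x : Fin k → ℤ × ℤ) (v : Fin (N + 1) → ℤ), (∀ i : Fin (k + 1), v (Fin.castLE hkN i) = symc x i) →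
        (∀ i : Fin (N + 1), n < (i : ℕ) → v i = 0) → ∀ l : Fin (k + 1),
        MvPolynomial.eval v (F (Fin.castLE hkN l)) = c₀ * symc (fun l => (ev2 (G m))^[i] (x l)) l) ∨
      ∃ (_ : k = 2) (_ : τ = (1, 0)) (hN : 2 + 1 ≤ N + 1), ∀ (x : Fin 2 → ℤ × ℤ) (v : Fin (N + 1) → ℤ),
        (∀ i : Fin (2 + 1), v (Fin.castLE hN i) = symc x i) →
        (∀ i : Fin (N + 1), n < (i : ℕ) → v i = 0) → ∀ l : Fin (2 + 1),
        MvPolynomial.eval v (F (Fin.castLE hN l)) = c₀ * (sd a b)^[j] (symc fun l => (ev2 (G m))^[i] (x l)) l)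
    (p : ℕ) [Fact p.Prime]
    (h2 : (2 : ZMod p) ≠ 0) (hc₀ : (c₀ : ZMod p) ≠ 0) (hc : ∀ i < m, (c i : ZMod p) ≠ 0 ∧ (c' i : ZMod p) ≠ 0)
    (hΔ : 4 * (a : ZMod p) ^ 3 + 27 * (b : ZMod p) ^ 2 ≠ 0) :
    ∃ r : ℕ, 1 ≤ r ∧ (∀ ℓ : ℕ, ℓ.Prime → ℓ ∣ r → ℓ ∣ 2 * m) ∧ ∀ D : ZMod p, D ≠ 0 →
      ∃ (M : (Fin k → (shortW ((a : ZMod p) * D ^ 2) ((b : ZMod p) * D ^ 3)).Point) →
      (Fin k → (shortW ((a : ZMod p) * D ^ 2) ((b : ZMod p) * D ^ 3)).Point))
      (z : Fin k → (shortW ((a : ZMod p) * D ^ 2) ((b : ZMod p) * D ^ 3)).Point),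
      (∀ x : Fin k → (shortW ((a : ZMod p) * D ^ 2) ((b : ZMod p) * D ^ 3)).Point, M (M (x + z)) = r • x + z) ∧
      LocalBase hkN n F D (shortW ((a : ZMod p) * D ^ 2) ((b : ZMod p) * D ^ 3)) M := by
  have hm := h.one_le
  have hprime : ∀ ℓ : ℕ, ℓ.Prime → ∀ i : ℕ, ℓ ∣ (m * m) ^ i → ℓ ∣ 2 * m := by
    intro ℓ hℓ i hd
    have h3 := hℓ.dvd_of_dvd_pow hd
    rcases hℓ.dvd_mul.1 h3 with h4 | h4 <;> exact h4.mul_left 2
  rcases hbase with hb | ⟨rfl, hτ, hN, hb⟩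
  · refine ⟨(m * m) ^ i, Nat.one_le_pow _ _ (Nat.mul_pos hm hm), fun ℓ hℓ hd => hprime ℓ hℓ i hd, fun D hD => ?_⟩
    obtain ⟨T, hT, _, hgood⟩ := chain_good h h2 hc hΔ D hD
    obtain ⟨z, hz⟩ := exists_shift m T hT
    have hit := goodMap_iter hgood (fun t x => ev2_hom (G m) hG t x) (fun x y hxy => ev2_mod (G m) x y hxy) i
    refine ⟨fun P l => (fun P => m • P + T)^[i] (P l), fun _ => z, fun x => ?_,
      localBase_gen hkN hkn F c₀ _ hb hc₀ D _ _ hit⟩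
    funext l
    exact iter_affine m T z hz i (x l)
  · refine ⟨2 ^ j * (m * m) ^ i, Nat.mul_pos (by positivity) (Nat.pow_pos (Nat.mul_pos hm hm)), fun ℓ hℓ hd => ?_, fun D hD => ?_⟩
    · rcases hℓ.dvd_mul.1 hd with h4 | h4
      · exact (hℓ.dvd_of_dvd_pow h4).mul_right m
      · exact hprime ℓ hℓ i h4
    · obtain ⟨T, hT, hT0, hgood⟩ := chain_good h h2 hc hΔ D hD
      have hT1 := hT0 hτ
      subst hT1
      have hit := goodMap_iter hgood (fun t x => ev2_hom (G m) hG t x) (fun x y hxy => ev2_mod (G m) x y hxy) i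
      have hLB := localBase_sdgen hN hkn F a b c₀ j _ hb h2 hc₀ D _ hit
      exact ⟨_, 0, fun x => sd_block m i j x, hLB⟩

end Pool.Agent.Lib.MP_05805c_nt
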