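import Mathlib

/-!
# Sum and difference on the x-line of a short Weierstrass curve

`sd a b (x(P) x(Q) : x(P) + x(Q) : 1) = (x(P+Q) x(P-Q) : x(P+Q) + x(P-Q) : 1)` on `y² = x³ + a x + b`
(`WeierstrassCurve.addSubMap` of Mathlib for short equations; the proof that it does this is here).
-/

set_option autoImplicit false

namespace Pool.Agent.Lib.MP_05805c_nt

/-- sum and difference, on `(x(P) x(Q) : x(P) + x(Q) : 1)` -/
def sd {R : Type*} [CommRing R] (a b : R) (v : Fin 3 → R) : Fin 3 → R :=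
  ![v 0 ^ 2 - 2 * a * v 0 * v 2 - 4 * b * v 1 * v 2 + a ^ 2 * v 2 ^ 2,
    2 * v 0 * v 1 + 2 * a * v 1 * v 2 + 4 * b * v 2 ^ 2,
    v 1 ^ 2 - 4 * v 0 * v 2]

/-- the curve `y² = x³ + a x + b` -/
def shortW {R : Type*} [CommRing R] (a b : R) : WeierstrassCurve.Affine R := ⟨0, 0, 0, a, b⟩

section

variable {K : Type*} [Field K]

open WeierstrassCurve.Affine

private lemma sd_eqn {a b x y : K} (h : (shortW a b).Nonsingular x y) : y ^ 2 = x ^ 3 + a * x + b := by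
  have h1 := (equation_iff ..).1 h.1
  simpa [shortW] using h1

private lemma sd_negY (a b x y : K) : (shortW a b).negY x y = -y := by
  simp [negY, shortW]

variable [DecidableEq K]

private lemma sd_self {a b : K} (h2 : (2 : K) ≠ 0) (x y : K) (h : (shortW a b).Nonsingular x y) :
    ∃ u : K, u ≠ 0 ∧ sd a b ![x * x, x + x, 1] =
      u • (Point.some x y h + Point.some x y h).sym2x 0 := by
  have he := sd_eqn h
  by_cases hy : y = 0
  · have h0 : Point.some x y h + Point.some x y h = 0 := by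
      apply Point.add_self_of_Y_eq
      rw [sd_negY, hy, neg_zero]
    rw [h0, Point.sym2x_zero_zero]
    have hns := (nonsingular_iff ..).1 h
    have h3 : 3 * x ^ 2 + a ≠ 0 := by
      rcases hns.2 with h4 | h4
      · simp [shortW, hy] at h4
        intro h5
        exact h4 h5.symm
      · exfalso
        apply h4
        simp [shortW, hy]
    have hb : b = -x ^ 3 - a * x := by
      rw [hy] at he
      linear_combination -he
    refine ⟨(3 * x ^ 2 + a) ^ 2, pow_ne_zero _ h3, ?_⟩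
    funext i
    fin_cases i
    · simp [sd, hb]; ring
    · simp [sd, hb]; ring
    · simp [sd]; ring
  · have hne : y ≠ (shortW a b).negY x y := by
      rw [sd_negY]
      intro h4
      apply hy
      have h5 : 2 * y = 0 := by linear_combination h4
      exact (mul_eq_zero.1 h5).resolve_left h2
    rw [Point.add_self_of_Y_ne hne, Point.sym2x_some_zero]
    refine ⟨4 * y ^ 2, mul_ne_zero (by
      have : (4 : K) = 2 * 2 := by norm_num
      rw [this]; exact mul_ne_zero h2 h2) (pow_ne_zero _ hy), ?_⟩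
    have hsl : (shortW a b).slope x x y y = (3 * x ^ 2 + a) / (2 * y) := by
      rw [slope_of_Y_ne rfl hne, sd_negY]
      simp [shortW]
      congr 1
      ring
    have hX : (shortW a b).addX x x ((shortW a b).slope x x y y) = ((3 * x ^ 2 + a) / (2 * y)) ^ 2 - x - x := by
      rw [hsl]
      simp [addX, shortW]
    rw [hX]
    have h6 : (3 * x ^ 2 + a) / (2 * y) * (2 * y) = 3 * x ^ 2 + a := div_mul_cancel₀ _ (mul_ne_zero h2 hy)
    generalize (3 * x ^ 2 + a) / (2 * y) = l at h6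
    funext i
    fin_cases i
    · simp [sd]
      linear_combination (-(l * (2 * y)) - (3 * x ^ 2 + a)) * h6 + 8 * x * he
    · simp [sd]
      linear_combination -4 * he
    · simp [sd]; ring

private lemma sd_ne {a b : K} (x₁ y₁ x₂ y₂ : K) (h₁ : (shortW a b).Nonsingular x₁ y₁)
    (h₂ : (shortW a b).Nonsingular x₂ y₂) (hx : x₁ ≠ x₂) :
    sd a b ![x₁ * x₂, x₁ + x₂, 1] =
      ((x₁ - x₂) ^ 2) • (Point.some x₁ y₁ h₁ + Point.some x₂ y₂ h₂).sym2x
        (Point.some x₁ y₁ h₁ - Point.some x₂ y₂ h₂) := by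
  have he₁ := sd_eqn h₁
  have he₂ := sd_eqn h₂
  have hd : x₁ - x₂ ≠ 0 := sub_ne_zero.2 hx
  rw [sub_eq_add_neg (Point.some x₁ y₁ h₁), Point.neg_some, Point.add_of_X_ne hx, Point.add_of_X_ne hx,
    Point.sym2x_some_some]
  have hX : (shortW a b).addX x₁ x₂ ((shortW a b).slope x₁ x₂ y₁ y₂) =
      ((y₁ - y₂) / (x₁ - x₂)) ^ 2 - x₁ - x₂ := by
    rw [slope_of_X_ne hx]
    simp [addX, shortW]
  have hX' : (shortW a b).addX x₁ x₂ ((shortW a b).slope x₁ x₂ y₁ ((shortW a b).negY x₂ y₂)) =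
      ((y₁ + y₂) / (x₁ - x₂)) ^ 2 - x₁ - x₂ := by
    rw [slope_of_X_ne hx, sd_negY]
    simp [addX, shortW]
  rw [hX, hX']
  have h5 : (y₁ - y₂) / (x₁ - x₂) * (x₁ - x₂) = y₁ - y₂ := div_mul_cancel₀ _ hd
  have h6 : (y₁ + y₂) / (x₁ - x₂) * (x₁ - x₂) = y₁ + y₂ := div_mul_cancel₀ _ hd
  generalize (y₁ - y₂) / (x₁ - x₂) = l at h5
  generalize (y₁ + y₂) / (x₁ - x₂) = l' at h6
  funext i
  fin_cases i
  · simp [sd]
    apply mul_right_cancel₀ (pow_ne_zero 2 hd)
    have e1 : (x₁ - x₂) ^ 2 * ((l ^ 2 - x₁ - x₂) * (l' ^ 2 - x₁ - x₂)) * (x₁ - x₂) ^ 2 =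
        ((l * (x₁ - x₂)) ^ 2 - (x₁ + x₂) * (x₁ - x₂) ^ 2) * ((l' * (x₁ - x₂)) ^ 2 - (x₁ + x₂) * (x₁ - x₂) ^ 2) := by
      ring
    rw [e1, h5, h6]
    have e2 : ((y₁ - y₂) ^ 2 - (x₁ + x₂) * (x₁ - x₂) ^ 2) * ((y₁ + y₂) ^ 2 - (x₁ + x₂) * (x₁ - x₂) ^ 2) =
        (y₁ ^ 2 - y₂ ^ 2) ^ 2 - (x₁ + x₂) * (x₁ - x₂) ^ 2 * (2 * y₁ ^ 2 + 2 * y₂ ^ 2) +
          (x₁ + x₂) ^ 2 * (x₁ - x₂) ^ 4 := by ring
    rw [e2, he₁, he₂]
    ring
  · simp [sd]
    linear_combination -(l * (x₁ - x₂) + (y₁ - y₂)) * h5 - (l' * (x₁ - x₂) + (y₁ + y₂)) * h6 - 2 * he₁ - 2 * he₂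
  · simp [sd]; ring

/-- the formula for sum and difference on the coordinates of unordered pairs -/
theorem sd_sym2x (a b : K) (h2 : (2 : K) ≠ 0) (P Q : (shortW a b).Point) :
    ∃ u : K, u ≠ 0 ∧ sd a b (P.sym2x Q) = u • (P + Q).sym2x (P - Q) := by
  rcases P with _ | ⟨x₁, y₁, h₁⟩
  · change ∃ u : K, u ≠ 0 ∧ sd a b ((0 : (shortW a b).Point).sym2x Q) =
      u • ((0 : (shortW a b).Point) + Q).sym2x (0 - Q)
    rw [zero_add, zero_sub, Point.sym2x_neg_right]
    refine ⟨1, one_ne_zero, ?_⟩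
    rcases Q with _ | ⟨x, y, h⟩
    · change sd a b ((0 : (shortW a b).Point).sym2x 0) = (1 : K) • (0 : (shortW a b).Point).sym2x 0
      rw [Point.sym2x_zero_zero]
      funext i
      fin_cases i <;> simp [sd]
    · rw [Point.sym2x_zero_some, Point.sym2x_some_some]
      funext i
      fin_cases i
      · simp [sd]; ring
      · simp [sd]; ring
      · simp [sd]
  rcases Q with _ | ⟨x₂, y₂, h₂⟩
  · change ∃ u : K, u ≠ 0 ∧ sd a b ((Point.some x₁ y₁ h₁).sym2x (0 : (shortW a b).Point)) =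
      u • (Point.some x₁ y₁ h₁ + (0 : (shortW a b).Point)).sym2x (Point.some x₁ y₁ h₁ - 0)
    rw [add_zero, sub_zero, Point.sym2x_some_zero, Point.sym2x_some_some]
    refine ⟨1, one_ne_zero, ?_⟩
    funext i
    fin_cases i
    · simp [sd]; ring
    · simp [sd]; ring
    · simp [sd]
  rw [Point.sym2x_some_some]
  by_cases hx : x₁ = x₂
  · rcases Point.X_eq_iff.1 hx with h | h
    · rw [← h, sub_self]
      subst hx
      exact sd_self h2 x₁ y₁ h₁
    · have h' : Point.some x₂ y₂ h₂ = -Point.some x₁ y₁ h₁ := by rw [h, neg_neg]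
      rw [h', sub_neg_eq_add, add_neg_cancel, Point.sym2x_comm]
      subst hx
      exact sd_self h2 x₁ y₁ h₁
  · exact ⟨(x₁ - x₂) ^ 2, pow_ne_zero 2 (sub_ne_zero.2 hx), sd_ne x₁ y₁ x₂ y₂ h₁ h₂ hx⟩

end

end Pool.Agent.Lib.MP_05805c_nt
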