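import Pool.Agent.Lib.MP_05805c_nt.L35.SumDiff

/-!
# Coordinates of unordered `k`-tuples of points of the line, and of points of a curve
-/

set_option autoImplicit false

namespace Pool.Agent.Lib.MP_05805c_nt

open Polynomial

/-- the coordinates of the unordered tuple of the points `(x_l : z_l)`: the coefficients of `∏ (z_l T + x_l)` -/
noncomputable def symc {R : Type*} [CommRing R] {k : ℕ} (x : Fin k → R × R) (i : Fin (k + 1)) : R :=
  (∏ l, (C (x l).2 * X + C (x l).1)).coeff i

/-- duplication on the x-line of `y² = x³ + a x + b` -/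
def dup {R : Type*} [CommRing R] (a b : R) (v : R × R) : R × R :=
  (v.1 ^ 4 - 2 * a * v.1 ^ 2 * v.2 ^ 2 - 8 * b * v.1 * v.2 ^ 3 + a ^ 2 * v.2 ^ 4,
    4 * v.2 * (v.1 ^ 3 + a * v.1 * v.2 ^ 2 + b * v.2 ^ 3))

section

variable {R : Type*} [CommRing R]

theorem symc_map {S : Type*} [CommRing S] (f : R →+* S) {k : ℕ} (x : Fin k → R × R) (i : Fin (k + 1)) :
    symc (fun l => (f (x l).1, f (x l).2)) i = f (symc x i) := by
  unfold symc
  rw [← coeff_map, Polynomial.map_prod]
  congr 1
  refine Finset.prod_congr rfl fun l _ => ?_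
  simp

theorem symc_smul {k : ℕ} (u : Fin k → R) (x : Fin k → R × R) :
    symc (fun l => u l • x l) = (∏ l, u l) • symc x := by
  funext i
  unfold symc
  have h : (∏ l, (C (u l • x l).2 * X + C (u l • x l).1)) = C (∏ l, u l) * ∏ l, (C (x l).2 * X + C (x l).1) := by
    rw [map_prod, ← Finset.prod_mul_distrib]
    refine Finset.prod_congr rfl fun l _ => ?_
    simp
    ring
  rw [h, coeff_C_mul]
  rfl

private theorem sy_deg {k : ℕ} (x : Fin k → R × R) : (∏ l, (C (x l).2 * X + C (x l).1)).natDegree ≤ k := by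
  refine (natDegree_prod_le _ _).trans ?_
  refine (Finset.sum_le_sum fun l _ => natDegree_linear_le).trans ?_
  simp

private theorem sy_coeff {k : ℕ} (x : Fin k → R × R) : (∏ l, (C (x l).2 * X + C (x l).1)).coeff k = ∏ l, (x l).2 := by
  have h := coeff_prod_of_natDegree_le (Finset.univ : Finset (Fin k)) (fun l => C (x l).2 * X + C (x l).1) 1
    (fun l _ => natDegree_linear_le)
  rw [Finset.card_univ, Fintype.card_fin, mul_one] at h
  rw [h]
  refine Finset.prod_congr rfl fun l _ => ?_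
  simp

theorem symc_two (x : Fin 2 → R × R) :
    symc x = ![(x 0).1 * (x 1).1, (x 0).1 * (x 1).2 + (x 0).2 * (x 1).1, (x 0).2 * (x 1).2] := by
  have h : (∏ l, (C (x l).2 * X + C (x l).1)) = C ((x 0).2 * (x 1).2) * X ^ 2 +
      C ((x 0).1 * (x 1).2 + (x 0).2 * (x 1).1) * X + C ((x 0).1 * (x 1).1) := by
    rw [Fin.prod_univ_two]
    simp only [map_mul, map_add]
    ring
  funext i
  unfold symc
  rw [h, coeff_add, coeff_add, coeff_C_mul, coeff_C_mul, coeff_X_pow, coeff_X, coeff_C]
  fin_cases i <;> simp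

end

section

variable {K : Type*} [Field K] {k : ℕ}

theorem symc_ne_zero (x : Fin k → K × K) (hx : ∀ l, x l ≠ 0) : symc x ≠ 0 := by
  intro h
  have h1 : (∏ l, (C (x l).2 * X + C (x l).1)) = 0 := by
    ext n
    rcases Nat.lt_or_ge n (k + 1) with hn | hn
    · have := congrFun h ⟨n, hn⟩
      simpa [symc] using this
    · rw [coeff_eq_zero_of_natDegree_lt (lt_of_le_of_lt (sy_deg x) hn), coeff_zero]
  obtain ⟨l, -, hl⟩ := Finset.prod_eq_zero_iff.1 h1
  apply hx l
  have h2 : (x l).2 = 0 := by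
    have := congrArg (fun p : K[X] => p.coeff 1) hl
    simpa using this
  have h3 : (x l).1 = 0 := by
    have := congrArg (fun p : K[X] => p.coeff 0) hl
    simpa using this
  exact Prod.ext h3 h2

theorem symc_fibre (x y : Fin k → K × K) (u : K) (h : symc y = u • symc x) (l : Fin k) :
    ∃ l', (x l').1 * (y l).2 = (x l').2 * (y l).1 ∨ u = 0 := by
  by_cases hu : u = 0
  · exact ⟨l, Or.inr hu⟩
  have h1 : (∏ l, (C (y l).2 * X + C (y l).1)) = C u * ∏ l, (C (x l).2 * X + C (x l).1) := by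
    ext n
    rw [coeff_C_mul]
    rcases Nat.lt_or_ge n (k + 1) with hn | hn
    · have := congrFun h ⟨n, hn⟩
      simpa [symc] using this
    · rw [coeff_eq_zero_of_natDegree_lt (lt_of_le_of_lt (sy_deg x) hn),
        coeff_eq_zero_of_natDegree_lt (lt_of_le_of_lt (sy_deg y) hn), mul_zero]
  by_cases hz : (y l).2 = 0
  · have h2 : u * ∏ l, (x l).2 = 0 := by
      rw [← sy_coeff x, ← coeff_C_mul, ← h1, sy_coeff]
      exact Finset.prod_eq_zero (Finset.mem_univ l) hz
    have h3 := (mul_eq_zero.1 h2).resolve_left hu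
    obtain ⟨l', -, hl'⟩ := Finset.prod_eq_zero_iff.1 h3
    exact ⟨l', Or.inl (by rw [hz, hl']; ring)⟩
  · have h2 := congrArg (fun p : K[X] => p.eval (-(y l).1 / (y l).2)) h1
    simp only [eval_prod, eval_mul, eval_C, eval_add, eval_X] at h2
    rw [Finset.prod_eq_zero (Finset.mem_univ l)] at h2
    · have h3 := (mul_eq_zero.1 h2.symm).resolve_left hu
      obtain ⟨l', -, hl'⟩ := Finset.prod_eq_zero_iff.1 h3
      refine ⟨l', Or.inl ?_⟩
      field_simp at hl'
      linear_combination hl'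
    · field_simp
      ring

end

section curve

variable {K : Type*} [Field K]

open WeierstrassCurve.Affine

/-- the point `(x : D z)` of the line, `(x : z)` the x-coordinate of `P` -/
noncomputable def phi1 (D : K) {W : WeierstrassCurve.Affine K} (P : W.Point) : K × K := (P.xRep 0, D * P.xRep 1)

theorem phi1_ne_zero {D : K} (hD : D ≠ 0) {W : WeierstrassCurve.Affine K} (P : W.Point) : phi1 D P ≠ 0 := by
  intro h
  apply Point.xRep_ne_zero P
  have h1 := congrArg Prod.fst h
  have h2 := congrArg Prod.snd h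
  funext i
  fin_cases i
  · exact h1
  · exact (mul_eq_zero.1 h2).resolve_left hD

theorem phi1_fibre {D : K} (hD : D ≠ 0) {W : WeierstrassCurve.Affine K} (P Q : W.Point)
    (h : (phi1 D P).1 * (phi1 D Q).2 = (phi1 D P).2 * (phi1 D Q).1) : Q = P ∨ Q = -P := by
  rcases P with _ | ⟨x₁, y₁, h₁⟩
  · rcases Q with _ | ⟨x₂, y₂, h₂⟩
    · exact Or.inl rfl
    · exfalso
      change ((0 : W.Point).xRep 0) * (D * (Point.some x₂ y₂ h₂).xRep 1) =
        (D * (0 : W.Point).xRep 1) * (Point.some x₂ y₂ h₂).xRep 0 at h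
      simp at h
      exact hD h
  · rcases Q with _ | ⟨x₂, y₂, h₂⟩
    · exfalso
      change ((Point.some x₁ y₁ h₁).xRep 0) * (D * (0 : W.Point).xRep 1) =
        (D * (Point.some x₁ y₁ h₁).xRep 1) * (0 : W.Point).xRep 0 at h
      simp at h
      exact hD h.symm
    · have h3 : x₂ = x₁ := by
        simp [phi1] at h
        have h4 : D * (x₂ - x₁) = 0 := by linear_combination -h
        exact sub_eq_zero.1 ((mul_eq_zero.1 h4).resolve_left hD)
      exact Point.X_eq_iff.1 h3

variable [DecidableEq K]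

theorem dup_phi1 (a b D : K) (h2 : (2 : K) ≠ 0) (P : (shortW (a * D ^ 2) (b * D ^ 3)).Point) :
    ∃ u : K, u ≠ 0 ∧ dup a b (phi1 D P) = u • phi1 D ((2 : ℕ) • P) := by
  obtain ⟨u, hu, h⟩ := sd_sym2x (a * D ^ 2) (b * D ^ 3) h2 P P
  rw [sub_self, ← two_nsmul] at h
  refine ⟨u, hu, ?_⟩
  have h0 := congrFun h 0
  have h1 := congrFun h 1
  simp [sd, Point.sym2x] at h0 h1
  simp only [dup, phi1]
  refine Prod.ext ?_ ?_
  · simp only [Prod.smul_mk, smul_eq_mul]
    rw [← h0]
    ring
  · simp only [Prod.smul_mk, smul_eq_mul]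
    linear_combination D * h1

theorem sd_phi1 (a b D : K) (h2 : (2 : K) ≠ 0) (P : Fin 2 → (shortW (a * D ^ 2) (b * D ^ 3)).Point) :
    ∃ u : K, u ≠ 0 ∧ sd a b (symc fun l => phi1 D (P l)) =
      u • symc fun l => phi1 D ((![P 0 + P 1, P 0 - P 1] : Fin 2 → (shortW (a * D ^ 2) (b * D ^ 3)).Point) l) := by
  obtain ⟨u, hu, h⟩ := sd_sym2x (a * D ^ 2) (b * D ^ 3) h2 (P 0) (P 1)
  refine ⟨u, hu, ?_⟩
  have h0 := congrFun h 0
  have h1 := congrFun h 1
  have h3 := congrFun h 2
  rw [symc_two, symc_two]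
  simp [sd, Point.sym2x] at h0 h1 h3
  funext i
  fin_cases i
  · simp [sd, phi1]
    linear_combination h0
  · simp [sd, phi1]
    linear_combination D * h1
  · simp [sd, phi1]
    linear_combination D ^ 2 * h3

end curve

end Pool.Agent.Lib.MP_05805c_nt
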